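import Pool.Agent.Lyn.Main

set_option autoImplicit false

/-! Independence of the relation vectors over a quotient with locally free kernel. -/

namespace Pool.Agent.Lyn

section
variable {X : Type}

/-- the value of a derivation depends on finitely many values on the generators -/
theorem fin_dep {K : Type} [Group K] (j : FreeGroup X →* K) (f : FreeGroup X) :
    ∀ g : K, ∃ S : Finset K, ∀ δ δ' : FreeGroup X → K → ℚ, IsDeriv j δ → IsDeriv j δ' →
      (∀ x, ∀ k ∈ S, δ (FreeGroup.of x) k = δ' (FreeGroup.of x) k) → δ f g = δ' f g := by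
  classical
  induction f using FreeGroup.induction_on with
  | C1 =>
    intro g
    exact ⟨∅, fun δ δ' h h' _ => by rw [h.one, h'.one]⟩
  | of x =>
    intro g
    exact ⟨{g}, fun δ δ' _ _ hx => hx x g (Finset.mem_singleton_self g)⟩
  | inv_of x _ =>
    intro g
    exact ⟨{g * (j (FreeGroup.of x))⁻¹}, fun δ δ' h h' hx => by
      rw [h.inv, h'.inv, hx x _ (Finset.mem_singleton_self _)]⟩
  | mul f f' hf hf' =>
    intro g
    obtain ⟨S, hS⟩ := hf g
    obtain ⟨S', hS'⟩ := hf' (g * j f)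
    refine ⟨S ∪ S', fun δ δ' h h' hx => ?_⟩
    rw [h.mul, h'.mul, hS δ δ' h h' (fun x k hk => hx x k (Finset.mem_union_left _ hk)),
      hS' δ δ' h h' (fun x k hk => hx x k (Finset.mem_union_right _ hk))]

/-- a derivation killing the relator is inner -/
theorem inner_of_kill {G : Type} [Group G] {j : FreeGroup X →* G} (hj : Function.Surjective j)
    {r : FreeGroup X} (hk : j.ker = NC r) {δ : FreeGroup X → G → ℚ} (hδ : IsDeriv j δ)
    (h0 : δ r = 0) : ∃ u : G → ℚ, ∀ f k, δ f k = u (k * j f) - u k := by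
  classical
  let N : Subgroup (FreeGroup X) :=
    { carrier := {n | j n = 1 ∧ δ n = 0}
      mul_mem' := by
        rintro a b ⟨ha, ha'⟩ ⟨hb, hb'⟩
        refine ⟨by rw [map_mul, ha, hb, one_mul], ?_⟩
        funext k
        rw [hδ.mul, ha', hb']
        simp
      one_mem' := ⟨map_one j, funext fun k => hδ.one k⟩
      inv_mem' := by
        rintro a ⟨ha, ha'⟩
        refine ⟨by rw [map_inv, ha, inv_one], ?_⟩
        funext k
        rw [hδ.inv, ha']
        simp }
  have hN : N.Normal := by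
    refine ⟨?_⟩
    rintro n ⟨hn, hn'⟩ g
    refine ⟨by rw [map_mul, map_mul, hn, map_inv]; group, ?_⟩
    funext k
    rw [hδ.conj g n hn, hn']
    rfl
  have hr : r ∈ N := by
    refine ⟨?_, h0⟩
    have := mem_NC r
    rw [← hk] at this
    exact this
  have hNC : ∀ n, j n = 1 → δ n = 0 := by
    intro n hn
    have h1 : n ∈ NC r := by
      rw [← hk]
      exact hn
    exact ((NC_le hr) h1).2
  have hwd : ∀ f f', j f = j f' → δ f = δ f' := by
    intro f f' h
    have h1 : δ (f⁻¹ * f') = 0 := hNC _ (by rw [map_mul, map_inv, h, inv_mul_cancel])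
    funext k
    have h2 := hδ.mul f (f⁻¹ * f') k
    rw [mul_inv_cancel_left, h1] at h2
    rw [h2]
    simp
  let d : G → G → ℚ := fun g k => δ (hj g).choose k
  have hd : ∀ f, d (j f) = δ f := fun f => hwd _ _ (hj (j f)).choose_spec
  have hD : IsDeriv (MonoidHom.id G) d := by
    refine ⟨fun g g' k => ?_⟩
    obtain ⟨f, rfl⟩ := hj g
    obtain ⟨f', rfl⟩ := hj g'
    rw [← map_mul, hd, hd, hd, hδ.mul]
    rfl
  obtain ⟨u, hu⟩ := inner (MonoidHom.id G) Function.injective_id d hD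
  exact ⟨u, fun f k => by rw [← hd, hu]; rfl⟩

/-- making a derivation invariant under a free subgroup -/
theorem make_inv {G : Type} [Group G] {j : FreeGroup X →* G} (hj : Function.Surjective j)
    {r : FreeGroup X} (hk : j.ker = NC r) {δ0 : FreeGroup X → G → ℚ} (hδ : IsDeriv j δ0)
    {B : Type} (c : FreeGroup B →* G) (hc : Function.Injective c)
    (hinv : ∀ a g, δ0 r (c a * g) = δ0 r g) :
    ∃ δ : FreeGroup X → G → ℚ, IsDeriv j δ ∧ δ r = δ0 r ∧ ∀ a f g, δ f (c a * g) = δ f g := by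
  classical
  have hjr : j r = 1 := by
    have := mem_NC r
    rw [← hk] at this
    exact this
  have h1 : ∀ b : B, ∃ u : G → ℚ, ∀ f k,
      δ0 f ((c (FreeGroup.of b))⁻¹ * k) - δ0 f k = u (k * j f) - u k := by
    intro b
    apply inner_of_kill hj hk (δ := fun f k => δ0 f ((c (FreeGroup.of b))⁻¹ * k) - δ0 f k)
    · refine ⟨fun f f' k => ?_⟩
      rw [hδ.mul, hδ.mul, ← mul_assoc]
      ring
    · funext k
      rw [← map_inv, hinv]
      simp
  choose u hu using h1
  obtain ⟨W, hW, hWg⟩ := exists_deriv c (fun b k => u b k⁻¹)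
  obtain ⟨v, hv⟩ := inner c hc W hW
  have key : ∀ a f g, δ0 f ((c a)⁻¹ * g) - δ0 f g = W a (g * j f)⁻¹ - W a g⁻¹ := by
    intro a
    induction a using FreeGroup.induction_on with
    | C1 => intro f g; rw [hW.one, hW.one]; simp
    | of b => intro f g; rw [hWg, hu]; simp
    | inv_of b ih =>
      intro f g
      have h2 := ih f (c (FreeGroup.of b) * g)
      rw [inv_mul_cancel_left] at h2
      rw [hW.inv, hW.inv]
      have h3 : (g * j f)⁻¹ * (c (FreeGroup.of b))⁻¹ = (c (FreeGroup.of b) * g * j f)⁻¹ := by group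
      have h4 : g⁻¹ * (c (FreeGroup.of b))⁻¹ = (c (FreeGroup.of b) * g)⁻¹ := by group
      rw [h3, h4, map_inv, inv_inv]
      linarith
    | mul a a' ha ha' =>
      intro f g
      have h2 := ha' f ((c a)⁻¹ * g)
      have h3 := ha f g
      rw [hW.mul, hW.mul, map_mul, mul_inv_rev, mul_assoc]
      have h4 : (g * j f)⁻¹ * c a = ((c a)⁻¹ * g * j f)⁻¹ := by group
      have h5 : g⁻¹ * c a = ((c a)⁻¹ * g)⁻¹ := by group
      rw [h4, h5]
      linarith
  refine ⟨fun f g => δ0 f g - (v (g * j f)⁻¹ - v g⁻¹), ⟨fun f f' k => ?_⟩, ?_, ?_⟩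
  · rw [hδ.mul, map_mul, ← mul_assoc]
    ring
  · funext g
    show δ0 r g - (v (g * j r)⁻¹ - v g⁻¹) = δ0 r g
    rw [hjr, mul_one]
    ring
  · intro a f g
    have h2 := key a⁻¹ f g
    rw [hv, hv] at h2
    rw [map_inv, inv_inv] at h2
    have h3 : (g * j f)⁻¹ * (c a)⁻¹ = (c a * g * j f)⁻¹ := by group
    have h4 : g⁻¹ * (c a)⁻¹ = (c a * g)⁻¹ := by group
    rw [h3, h4] at h2
    linarith

/-- Every invariant function on the quotient is, on a finite set, the value at the relator of a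
derivation: the relation vectors are independent. -/
theorem app {r s : FreeGroup X} (hr : r ≠ 1) (hs : IsRoot s r) {Γ : Type} [Group Γ]
    (p : FreeGroup X →* Γ) (hp : Function.Surjective p) (hpr : NC r ≤ p.ker)
    (hL : ∀ P : Subgroup (FreeGroup X ⧸ NC r), P ≤ (QuotientGroup.lift (NC r) p hpr).ker →
      P.FG → IsFreeGroup P)
    (m : Γ → ℚ) (hm : ∀ γ, m (γ * p s) = m γ) (T : Finset Γ) :
    ∃ δ : FreeGroup X → Γ → ℚ, IsDeriv p δ ∧ ∀ γ ∈ T, δ r γ = m γ := by
  classical
  let j : FreeGroup X →* (FreeGroup X ⧸ NC r) := QuotientGroup.mk' (NC r)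
  let q : (FreeGroup X ⧸ NC r) →* Γ := QuotientGroup.lift (NC r) p hpr
  have hqj : ∀ f, q (j f) = p f := fun f => rfl
  have hjs : Function.Surjective j := QuotientGroup.mk'_surjective _
  have hjk : j.ker = NC r := QuotientGroup.ker_mk' _
  have hqs : ∀ γ, ∃ g, q g = γ := by
    intro γ
    obtain ⟨f, rfl⟩ := hp γ
    exact ⟨j f, hqj f⟩
  choose σ hσ using hqs
  obtain ⟨δ0, hδ0, hδ0r⟩ := lyndon hr (FreeGroup X ⧸ NC r) j hjk s hs (fun g => m (q g))
    (fun g => by rw [map_mul, hqj, hm])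
  -- finite dependence
  choose S hS using fin_dep j r
  let U : Finset (FreeGroup X ⧸ NC r) := T.biUnion (fun γ => S (σ γ))
  let A : Finset (FreeGroup X ⧸ NC r) :=
    ((U ×ˢ U).filter (fun z => q z.1 = q z.2)).image (fun z => z.2 * z.1⁻¹)
  let P : Subgroup (FreeGroup X ⧸ NC r) := Subgroup.closure (A : Set (FreeGroup X ⧸ NC r))
  have hPk : P ≤ q.ker := by
    rw [Subgroup.closure_le]
    intro a ha
    obtain ⟨z, hz, rfl⟩ := Finset.mem_image.1 (Finset.mem_coe.1 ha)
    have h1 := (Finset.mem_filter.1 hz).2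
    show q (z.2 * z.1⁻¹) = 1
    rw [map_mul, map_inv, h1, mul_inv_cancel]
  have hfree : IsFreeGroup P := hL P hPk ⟨A, rfl⟩
  obtain ⟨B, ⟨b⟩⟩ := hfree.nonempty_basis
  let c : FreeGroup B →* (FreeGroup X ⧸ NC r) := P.subtype.comp b.repr.symm.toMonoidHom
  have hc : Function.Injective c := P.subtype_injective.comp b.repr.symm.injective
  have hcP : ∀ a, c a ∈ P := fun a => (b.repr.symm a).2
  have hPc : ∀ g ∈ P, ∃ a, c a = g := by
    intro g hg
    exact ⟨b.repr ⟨g, hg⟩, by simp [c]⟩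
  obtain ⟨δ1, hδ1, hδ1r, hδ1i⟩ := make_inv hjs hjk hδ0 c hc (by
    intro a g
    rw [hδ0r]
    show m (q (c a * g)) = m (q g)
    have : q (c a) = 1 := hPk (hcP a)
    rw [map_mul, this, one_mul])
  obtain ⟨δ, hδ, hδg⟩ := exists_deriv p (fun x γ =>
    if h : ∃ g ∈ U, q g = γ then δ1 (FreeGroup.of x) h.choose else 0)
  refine ⟨δ, hδ, fun γ hγ => ?_⟩
  have h2 : IsDeriv j (fun f g => δ f (q g)) := by
    refine ⟨fun f f' g => ?_⟩
    rw [hδ.mul, map_mul, hqj]
  have h3 : ∀ x, ∀ k ∈ S (σ γ), δ (FreeGroup.of x) (q k) = δ1 (FreeGroup.of x) k := by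
    intro x k hk
    have hkU : k ∈ U := Finset.mem_biUnion.2 ⟨γ, hγ, hk⟩
    have h : ∃ g ∈ U, q g = q k := ⟨k, hkU, rfl⟩
    have h0 : δ (FreeGroup.of x) (q k) = δ1 (FreeGroup.of x) h.choose := by
      rw [hδg]
      exact dif_pos h
    rw [h0]
    obtain ⟨h4, h5⟩ := h.choose_spec
    set g := h.choose
    have h6 : k * g⁻¹ ∈ P := by
      apply Subgroup.subset_closure
      exact Finset.mem_coe.2 (Finset.mem_image.2 ⟨(g, k),
        Finset.mem_filter.2 ⟨Finset.mem_product.2 ⟨h4, hkU⟩, h5⟩, rfl⟩)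
    obtain ⟨a, ha⟩ := hPc _ h6
    have h7 := hδ1i a (FreeGroup.of x) g
    rw [ha, inv_mul_cancel_right] at h7
    exact h7.symm
  have h4 := hS (σ γ) (fun f g => δ f (q g)) δ1 h2 hδ1 h3
  simp only [hσ] at h4
  rw [h4, hδ1r, hδ0r]
  show m (q (σ γ)) = m γ
  rw [hσ]

end

end Pool.Agent.Lyn
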