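import Pool.Agent.Lyn.Defs

set_option autoImplicit false

namespace Pool.Agent.Lyn

/-! ### derivations -/

section deriv
variable {F K : Type} [Group F] [Group K] {j : F →* K} {δ δ' : F → K → ℚ}

theorem IsDeriv.one (h : IsDeriv j δ) (k : K) : δ 1 k = 0 := by
  have := h.mul 1 1 k
  simp only [mul_one, map_one] at this
  linarith

theorem IsDeriv.inv (h : IsDeriv j δ) (f : F) (k : K) : δ f⁻¹ k = - δ f (k * (j f)⁻¹) := by
  have h1 := h.mul f⁻¹ f k
  rw [inv_mul_cancel, h.one, map_inv] at h1
  linarith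

theorem IsDeriv.comp {E : Type} [Group E] (ψ : E →* F) (h : IsDeriv j δ) :
    IsDeriv (j.comp ψ) (fun e => δ (ψ e)) :=
  ⟨fun f f' k => by rw [map_mul, h.mul]; rfl⟩

theorem IsDeriv.conj (h : IsDeriv j δ) (g r : F) (hr : j r = 1) (k : K) :
    δ (g * r * g⁻¹) k = δ r (k * j g) := by
  rw [h.mul, h.mul, map_mul, hr, mul_one, h.inv, mul_inv_cancel_right]
  ring

/-- two derivations which agree on `f`, `g` agree on the product and the inverse -/
theorem IsDeriv.agree_mul (h : IsDeriv j δ) (h' : IsDeriv j δ') {f g : F} (hf : δ f = δ' f)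
    (hg : δ g = δ' g) : δ (f * g) = δ' (f * g) := by
  funext k
  rw [h.mul, h'.mul, hf, hg]

theorem IsDeriv.agree_inv (h : IsDeriv j δ) (h' : IsDeriv j δ') {f : F} (hf : δ f = δ' f) :
    δ f⁻¹ = δ' f⁻¹ := by
  funext k
  rw [h.inv, h'.inv, hf]

/-- every derivation of a group which injects into `K` is inner -/
theorem inner (i : F →* K) (hi : Function.Injective i) (d : F → K → ℚ) (hd : IsDeriv i d) :
    ∃ u : K → ℚ, ∀ a k, d a k = u (k * i a) - u k := by
  classical
  let H := i.range
  -- representatives of the left cosets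
  let τ : K → K := fun k => Quotient.out (QuotientGroup.mk k : K ⧸ H)
  have hτ : ∀ k, ∃ p : F, i p = (τ k)⁻¹ * k := by
    intro k
    have : (QuotientGroup.mk (τ k) : K ⧸ H) = QuotientGroup.mk k := Quotient.out_eq _
    rw [QuotientGroup.eq] at this
    exact this
  choose p hp using hτ
  refine ⟨fun k => d (p k) (τ k), fun a k => ?_⟩
  have h1 : τ (k * i a) = τ k := by
    have : (QuotientGroup.mk (k * i a) : K ⧸ H) = QuotientGroup.mk k := by
      rw [eq_comm, QuotientGroup.eq]
      exact ⟨a, by group⟩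
    show Quotient.out _ = Quotient.out _
    rw [this]
  have h2 : p (k * i a) = p k * a := by
    apply hi
    rw [hp, h1, map_mul, hp, mul_assoc]
  show d a k = d (p (k * i a)) (τ (k * i a)) - d (p k) (τ k)
  rw [h1, h2, hd.mul, hp, mul_inv_cancel_left]
  ring

end deriv

/-! ### derivations of free groups -/

section free
variable {X K : Type} [Group K]

theorem IsDeriv.ext_gen {j : FreeGroup X →* K} {δ δ' : FreeGroup X → K → ℚ} (h : IsDeriv j δ)
    (h' : IsDeriv j δ') (hx : ∀ x, δ (FreeGroup.of x) = δ' (FreeGroup.of x)) : δ = δ' := by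
  funext f
  induction f using FreeGroup.induction_on with
  | C1 => funext k; rw [h.one, h'.one]
  | of x => exact hx x
  | inv_of x ih => exact h.agree_inv h' (hx x)
  | mul f g hf hg => exact h.agree_mul h' hf hg

/-- the permutation of `K × ℚ` of a pair -/
private def dperm (κ : K) (g : K → ℚ) : Equiv.Perm (K × ℚ) where
  toFun p := (p.1 * κ, p.2 + g p.1)
  invFun p := (p.1 * κ⁻¹, p.2 - g (p.1 * κ⁻¹))
  left_inv p := by simp
  right_inv p := by simp

theorem exists_deriv (j : FreeGroup X →* K) (g : X → K → ℚ) :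
    ∃ δ : FreeGroup X → K → ℚ, IsDeriv j δ ∧ ∀ x, δ (FreeGroup.of x) = g x := by
  let T : FreeGroup X →* (Equiv.Perm (K × ℚ))ᵐᵒᵖ :=
    FreeGroup.lift (fun x => MulOpposite.op (dperm (j (FreeGroup.of x)) (g x)))
  let δ : FreeGroup X → K → ℚ := fun f k => ((T f).unop (k, 0)).2
  have key : ∀ f k q, (T f).unop (k, q) = (k * j f, q + δ f k) := by
    intro f
    induction f using FreeGroup.induction_on with
    | C1 =>
      intro k q
      simp [δ]
    | of x =>
      intro k q
      simp [T, δ, dperm]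
    | inv_of x ih =>
      intro k q
      simp only [map_inv, MulOpposite.unop_inv, δ]
      simp [T, dperm, Equiv.Perm.inv_def]
      ring
    | mul f f' hf hf' =>
      intro k q
      have h1 : ∀ p, (T (f * f')).unop p = (T f').unop ((T f).unop p) := by
        intro p
        rw [map_mul, MulOpposite.unop_mul]
        rfl
      have h2 : δ (f * f') k = δ f k + δ f' (k * j f) := by
        show ((T (f * f')).unop (k, 0)).2 = _
        rw [h1, hf, hf']
        simp
      rw [h1, hf, hf', h2, map_mul, mul_assoc, add_assoc]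
  refine ⟨δ, ⟨fun f f' k => ?_⟩, fun x => ?_⟩
  · show ((T (f * f')).unop (k, 0)).2 = _
    rw [map_mul, MulOpposite.unop_mul]
    show ((T f').unop ((T f).unop (k, 0))).2 = _
    rw [key, key]
    simp
  · funext k
    simp [δ, T, dperm]

end free

/-! ### conjugation -/

section conj
variable {X : Type}

theorem mem_NC (r : FreeGroup X) : r ∈ NC r := Subgroup.subset_normalClosure rfl

instance (r : FreeGroup X) : (NC r).Normal := Subgroup.normalClosure_normal

theorem NC_le {r : FreeGroup X} {N : Subgroup (FreeGroup X)} [N.Normal] (h : r ∈ N) : NC r ≤ N :=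
  Subgroup.normalClosure_le_normal (by simpa using h)

theorem NC_conj (g r : FreeGroup X) : NC (g * r * g⁻¹) = NC r := by
  apply le_antisymm
  · exact NC_le (Subgroup.Normal.conj_mem inferInstance _ (mem_NC r) g)
  · apply NC_le
    have := Subgroup.Normal.conj_mem (inferInstance : (NC (g * r * g⁻¹)).Normal) _
      (mem_NC (g * r * g⁻¹)) g⁻¹
    simpa [mul_assoc] using this

theorem NC_ker_of {G : Type} [Group G] {r : FreeGroup X} (f : FreeGroup X →* G) (h : f r = 1) :
    NC r ≤ f.ker := NC_le (show r ∈ f.ker from h)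

theorem Ess_conj {x : X} {g r : FreeGroup X} (h : Ess x (g * r * g⁻¹)) : Ess x r := by
  intro a ha
  refine h (a * g⁻¹) ?_
  have : a * g⁻¹ * (g * r * g⁻¹) * (a * g⁻¹)⁻¹ = a * r * a⁻¹ := by group
  rw [this]
  exact ha

theorem Ess_conj' {x : X} {r : FreeGroup X} (g : FreeGroup X) (h : Ess x r) :
    Ess x (g * r * g⁻¹) := by
  have : r = g⁻¹ * (g * r * g⁻¹) * g⁻¹⁻¹ := by group
  rw [this] at h
  exact Ess_conj h

theorem Frei_conj {g r : FreeGroup X} (h : Frei (g * r * g⁻¹)) : Frei r := by
  intro x hx w hw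
  refine h x (Ess_conj' g hx) w ?_
  rw [NC_conj]
  exact hw

theorem IsRoot_conj {F : Type} [Group F] {s r : F} (g : F) (h : IsRoot s r) :
    IsRoot (g * s * g⁻¹) (g * r * g⁻¹) := by
  obtain ⟨⟨n, hn, hr⟩, h2⟩ := h
  refine ⟨⟨n, hn, by rw [conj_pow, hr]⟩, fun u k hu => h2 (g⁻¹ * u * g) k ?_⟩
  have := conj_pow (a := g⁻¹) (b := u) (i := k)
  rw [inv_inv] at this
  rw [this, hu]
  group

theorem Lynd_conj {g r : FreeGroup X} (h : Lynd (g * r * g⁻¹)) : Lynd r := by
  intro K _ j hj s hs m hm
  have hr1 : j r = 1 := by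
    have := mem_NC r
    rw [← hj] at this
    exact this
  obtain ⟨δ, hδ, hδr⟩ := h K j (by rw [NC_conj]; exact hj) (g * s * g⁻¹) (IsRoot_conj g hs)
    (fun k => m (k * j g)) (fun k => by
      show m (k * j (g * s * g⁻¹) * j g) = m (k * j g)
      have : k * j (g * s * g⁻¹) * j g = k * j g * j s := by
        rw [map_mul, map_mul, map_inv]; group
      rw [this, hm])
  refine ⟨δ, hδ, ?_⟩
  funext k
  have h1 := congrFun hδr (k * (j g)⁻¹)
  rw [hδ.conj g r hr1] at h1
  simpa using h1

end conj

end Pool.Agent.Lyn
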