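import Mathlib

/-! Magnus' Freiheitssatz and Lyndon's identity theorem in dual form: definitions. -/

set_option autoImplicit false

namespace Pool.Agent.Lyn

/-- The free group on the generators with the property `P`, inside the free group. -/
def inc {X : Type} (P : X → Prop) : FreeGroup {y // P y} →* FreeGroup X :=
  FreeGroup.map Subtype.val

/-- Normal closure of one element. -/
def NC {X : Type} (r : FreeGroup X) : Subgroup (FreeGroup X) := Subgroup.normalClosure {r}

/-- No conjugate of `r` avoids the generator `x`. -/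
def Ess {X : Type} (x : X) (r : FreeGroup X) : Prop :=
  ∀ g : FreeGroup X, g * r * g⁻¹ ∉ (inc (· ≠ x)).range

/-- Freiheitssatz for `r`. -/
def Frei {X : Type} (r : FreeGroup X) : Prop :=
  ∀ x, Ess x r → ∀ w : FreeGroup {y // y ≠ x}, inc (· ≠ x) w ∈ NC r → w = 1

/-- Derivations into the functions on a group `K`, `(k • m) h = m (h * k)`. -/
structure IsDeriv {F K : Type} [Group F] [Group K] (j : F →* K) (δ : F → K → ℚ) : Prop where
  mul : ∀ f f' k, δ (f * f') k = δ f k + δ f' (k * j f)

/-- `r` is a power of `s` and `s` is not a proper power. -/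
def IsRoot {F : Type} [Group F] (s r : F) : Prop :=
  (∃ n : ℕ, 0 < n ∧ s ^ n = r) ∧ ∀ (u : F) (k : ℕ), u ^ k = s → k = 1

/-- Lyndon's identity theorem for `r`, dual form. -/
def Lynd {X : Type} (r : FreeGroup X) : Prop :=
  ∀ (K : Type) [Group K] (j : FreeGroup X →* K), j.ker = NC r → ∀ s, IsRoot s r →
    ∀ m : K → ℚ, (∀ k, m (k * j s) = m k) → ∃ δ : FreeGroup X → K → ℚ, IsDeriv j δ ∧ δ r = m

open Classical in
/-- The generator `x` occurs in `r`. -/
def Occ {X : Type} (x : X) (r : FreeGroup X) : Prop := ∃ e : Bool, (x, e) ∈ r.toWord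

open Classical in
/-- cyclically reduced -/
def CR {X : Type} (r : FreeGroup X) : Prop := FreeGroup.IsCyclicallyReduced r.toWord

open Classical in
/-- length -/
noncomputable def len {X : Type} (r : FreeGroup X) : ℕ := r.toWord.length

/-- exponent sum -/
noncomputable def sig {X : Type} (x : X) : FreeGroup X →* Multiplicative ℤ :=
  open Classical in FreeGroup.lift (fun y => if y = x then Multiplicative.ofAdd 1 else 1)

end Pool.Agent.Lyn
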