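import Pool.Agent.Lyn.Wreath

set_option autoImplicit false

/-! The Freiheitssatz and Lyndon's theorem. -/

namespace Pool.Agent.Lyn

section
variable {X : Type}

/-! ### one generator -/

theorem eq_zpow_of_range {x : X} {v : FreeGroup X} (h : v ∈ (inc (· = x)).range) :
    ∃ a : ℤ, v = FreeGroup.of x ^ a := by
  obtain ⟨w, rfl⟩ := h
  induction w using FreeGroup.induction_on with
  | C1 => exact ⟨0, by simp⟩
  | of y =>
    refine ⟨1, ?_⟩
    rw [zpow_one]
    have : inc (· = x) (FreeGroup.of y) = FreeGroup.of y.1 := FreeGroup.map.of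
    rw [this, y.2]
  | inv_of y ih =>
    obtain ⟨a, ha⟩ := ih
    exact ⟨-a, by rw [map_inv, ha, zpow_neg]⟩
  | mul a b ha hb =>
    obtain ⟨i, hi⟩ := ha
    obtain ⟨j, hj⟩ := hb
    exact ⟨i + j, by rw [map_mul, hi, hj, zpow_add]⟩

theorem deriv_zpow {K : Type} [Group K] {j : FreeGroup X →* K} {δ : FreeGroup X → K → ℚ}
    (hδ : IsDeriv j δ) (f : FreeGroup X) (hf : ∀ k, δ f (k * j f) = δ f k) (a : ℤ) (k : K) :
    δ (f ^ a) k = a * δ f k := by
  have hf' : ∀ k, δ f (k * (j f)⁻¹) = δ f k := by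
    intro k
    have := hf (k * (j f)⁻¹)
    rw [inv_mul_cancel_right] at this
    exact this.symm
  have hz : ∀ (a : ℤ) k, δ f (k * j f ^ a) = δ f k := by
    intro a
    induction a using Int.induction_on with
    | zero => intro k; simp
    | succ n ih => intro k; rw [zpow_add_one, ← mul_assoc, hf, ih]
    | pred n ih => intro k; rw [zpow_sub_one, ← mul_assoc, hf', ih]
  induction a using Int.induction_on with
  | zero => rw [zpow_zero, hδ.one]; simp
  | succ n ih => rw [zpow_add_one, hδ.mul, ih, map_zpow, hz]; push_cast; ring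
  | pred n ih => rw [zpow_sub_one, hδ.mul, ih, map_zpow, hδ.inv, hf', hz]; push_cast; ring

theorem case1 {r : FreeGroup X} (hr : r ≠ 1) {x : X} (hx : ∀ z, Occ z r → z = x) :
    Frei r ∧ Lynd r := by
  classical
  have h1 : r ∈ (inc (· = x)).range := mem_range_inc.2 hx
  obtain ⟨a, ha⟩ := eq_zpow_of_range h1
  have ha0 : a ≠ 0 := by
    rintro rfl
    exact hr (by rw [ha, zpow_zero])
  constructor
  · intro z hz w hw
    have hzx := hx z (Occ_of_Ess hz)
    subst hzx
    let ρ : FreeGroup X →* FreeGroup X :=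
      FreeGroup.lift (fun y => if y = z then 1 else FreeGroup.of y)
    have h2 : ρ (FreeGroup.of z) = 1 := by
      simp only [ρ]
      rw [FreeGroup.lift_apply_of, if_pos rfl]
    have h3 : ρ r = 1 := by rw [ha, map_zpow, h2, one_zpow]
    have h4 : ρ (inc (· ≠ z) w) = 1 := NC_ker_of ρ h3 hw
    have h5 : ρ.comp (inc (· ≠ z)) = inc (· ≠ z) := by
      apply FreeGroup.ext_hom
      intro y
      simp only [ρ, MonoidHom.comp_apply, inc, FreeGroup.map.of, FreeGroup.lift_apply_of]
      rw [if_neg y.2]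
    have h6 : inc (· ≠ z) w = 1 := by
      rw [← h4]
      exact (congrArg (fun f => f w) h5).symm
    exact inc_injective _ (by rw [h6, map_one])
  · intro K _ j hj s hs m hm
    obtain ⟨⟨n, hn, hsn⟩, hs2⟩ := hs
    have h2 : s ∈ (inc (· = x)).range := root_closure hn.ne' (by rw [hsn]; exact h1)
    obtain ⟨e, he⟩ := eq_zpow_of_range h2
    have h3 : e = 1 ∨ e = -1 := by
      rcases le_total 0 e with h | h
      · left
        have := hs2 (FreeGroup.of x) e.toNat (by
          rw [he, ← zpow_natCast, Int.toNat_of_nonneg h])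
        omega
      · right
        have := hs2 (FreeGroup.of x)⁻¹ (-e).toNat (by
          rw [he, ← zpow_natCast, Int.toNat_of_nonneg (by omega)]
          simp)
        omega
    have h4 : ∀ k, m (k * j (FreeGroup.of x)) = m k := by
      rcases h3 with h | h
      · intro k
        have := hm k
        rw [he, h, zpow_one] at this
        exact this
      · intro k
        have := hm (k * j (FreeGroup.of x))
        rw [he, h, zpow_neg, zpow_one, map_inv, mul_inv_cancel_right] at this
        exact this.symm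
    obtain ⟨δ, hδ, hδg⟩ := exists_deriv j (fun _ k => m k / a)
    refine ⟨δ, hδ, ?_⟩
    funext k
    rw [ha, deriv_zpow hδ _ (fun k => by rw [hδg]; simp only; rw [h4]), hδg]
    have : (a : ℚ) ≠ 0 := by exact_mod_cast ha0
    field_simp

/-! ### reduction of Lyndon's theorem to the quotient -/

theorem Lynd_of_quot {r : FreeGroup X} (h : ∀ s, IsRoot s r → ∀ m : FreeGroup X ⧸ NC r → ℚ,
    (∀ g, m (g * QuotientGroup.mk' (NC r) s) = m g) → ∃ δ : FreeGroup X → (FreeGroup X ⧸ NC r) → ℚ,
      IsDeriv (QuotientGroup.mk' (NC r)) δ ∧ δ r = m) : Lynd r := by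
  classical
  intro K _ j hj s hs m hm
  let G := FreeGroup X ⧸ NC r
  let e : G →* K := QuotientGroup.lift (NC r) j (by
    intro w hw
    rw [← hj] at hw
    exact hw)
  have he : ∀ f, e (QuotientGroup.mk' (NC r) f) = j f := fun f => rfl
  have hei : Function.Injective e := by
    rw [injective_iff_map_eq_one]
    intro g
    obtain ⟨f, rfl⟩ := QuotientGroup.mk'_surjective (NC r) g
    intro hf
    rw [he] at hf
    apply (QuotientGroup.eq_one_iff _).2
    rw [← hj]
    exact hf
  let τ : K → K := fun k => Quotient.out (QuotientGroup.mk k : K ⧸ e.range)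
  have hτ : ∀ k, ∃ p : G, e p = (τ k)⁻¹ * k := by
    intro k
    have : (QuotientGroup.mk (τ k) : K ⧸ e.range) = QuotientGroup.mk k := Quotient.out_eq _
    rw [QuotientGroup.eq] at this
    exact this
  choose p hp using hτ
  have hτ1 : ∀ k g, τ (k * e g) = τ k := by
    intro k g
    have : (QuotientGroup.mk (k * e g) : K ⧸ e.range) = QuotientGroup.mk k := by
      rw [eq_comm, QuotientGroup.eq]
      exact ⟨g, by group⟩
    show Quotient.out _ = Quotient.out _
    rw [this]
  have hp1 : ∀ k g, p (k * e g) = p k * g := by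
    intro k g
    apply hei
    rw [hp, hτ1, map_mul, hp, mul_assoc]
  have key : ∀ c : K, ∃ δ : FreeGroup X → G → ℚ, IsDeriv (QuotientGroup.mk' (NC r)) δ ∧
      δ r = fun g => m (c * e g) := by
    intro c
    refine h s hs (fun g => m (c * e g)) (fun g => ?_)
    rw [map_mul, he, ← mul_assoc, hm]
  choose δc hδc hδr using key
  refine ⟨fun f k => δc (τ k) f (p k), ⟨fun f f' k => ?_⟩, ?_⟩
  · rw [(hδc (τ k)).mul, ← he, hτ1, hp1]
  · funext k
    show δc (τ k) r (p k) = m k
    rw [hδr]
    show m (τ k * e (p k)) = m k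
    rw [hp, mul_inv_cancel_left]

/-! ### nonzero exponent sums -/

theorem kap_avoid {a b : X} (hab : a ≠ b) (n : ℕ) (c : ℤ) (w : FreeGroup {y // y ≠ a}) :
    kap a b n c (inc (· ≠ a) w) ∈ (inc (· ≠ a)).range := by
  have hof : ∀ y : X, y ≠ a → FreeGroup.of y ∈ (inc (· ≠ a)).range :=
    fun y hy => ⟨FreeGroup.of ⟨y, hy⟩, FreeGroup.map.of⟩
  induction w using FreeGroup.induction_on with
  | C1 => rw [map_one, map_one]; exact one_mem _
  | of y =>
    have : inc (· ≠ a) (FreeGroup.of y) = FreeGroup.of y.1 := FreeGroup.map.of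
    rw [this]
    by_cases hyb : y.1 = b
    · rw [hyb, kap_b hab]
      exact pow_mem (hof b hab.symm) n
    · rw [kap_y y.2 hyb]
      exact hof _ y.2
  | inv_of y ih => rw [map_inv, map_inv]; exact inv_mem ih
  | mul v w hv hw => rw [map_mul, map_mul]; exact mul_mem hv hw

theorem sig_kap_a {a b : X} (hab : a ≠ b) (n : ℕ) (c : ℤ) (f : FreeGroup X) :
    sig a (kap a b n c f) = sig a f := by
  have : (sig a).comp (kap a b n c) = sig a := by
    apply FreeGroup.ext_hom
    intro y
    rw [MonoidHom.comp_apply]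
    by_cases hya : y = a
    · subst hya
      rw [kap_a, map_mul, map_zpow, sig_of_ne hab.symm, one_zpow, mul_one]
    · by_cases hyb : y = b
      · subst hyb
        rw [kap_b hab, map_pow, sig_of_ne hya, one_pow]
      · rw [kap_y hya hyb]
  exact congrArg (fun f' => f' f) this

theorem sig_kap_b {a b : X} (hab : a ≠ b) (n : ℕ) (c : ℤ) (f : FreeGroup X) :
    sig b (kap a b n c f) = sig a f ^ c * sig b f ^ n := by
  let φ : FreeGroup X →* Multiplicative ℤ :=
    (zpowGroupHom c).comp (sig a) * (powMonoidHom n).comp (sig b)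
  have : (sig b).comp (kap a b n c) = φ := by
    apply FreeGroup.ext_hom
    intro y
    simp only [MonoidHom.comp_apply, φ, MonoidHom.mul_apply, zpowGroupHom_apply,
      powMonoidHom_apply]
    by_cases hya : y = a
    · subst hya
      rw [kap_a, map_mul, map_zpow, sig_of_ne hab, one_mul, one_pow, mul_one, sig_of_self,
        sig_of_self]
    · by_cases hyb : y = b
      · subst hyb
        rw [kap_b hab, map_pow, sig_of_ne hya, one_zpow, one_mul]
      · rw [kap_y hya hyb, sig_of_ne hya, sig_of_ne hyb, one_zpow, one_pow, mul_one]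
  exact congrArg (fun f' => f' f) this

theorem Phi_kap_len {a b : X} (hab : a ≠ b) (n : ℕ) (c : ℤ) (f : FreeGroup X) :
    len (Phi b (kap a b n c f)).left ≤ cn (· ≠ b) f := by
  apply len_left b ((Phi b).comp (kap a b n c))
  · rw [MonoidHom.comp_apply, kap_b hab, map_pow, Phi_t, ← map_pow, SemidirectProduct.left_inr]
  · intro y hy
    rw [MonoidHom.comp_apply]
    by_cases hya : y = a
    · subst hya
      rw [kap_a, map_mul, map_zpow, Phi_t, Phi_of b ⟨y, hy⟩, ← map_zpow, SemidirectProduct.mul_left,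
        SemidirectProduct.left_inl, SemidirectProduct.left_inr, map_one, mul_one, len_of]
    · rw [kap_y hya hy, Phi_of b ⟨y, hy⟩, SemidirectProduct.left_inl, len_of]

theorem exists_kap {r : FreeGroup X} (hr : r ≠ 1) {a b : X} (hab : a ≠ b) (hb : Occ b r)
    (ha0 : sig a r ≠ 1)
    (IH : ∀ (Z : Type) (ρ : FreeGroup Z), ρ ≠ 1 → len ρ < len r → Frei ρ ∧ Lynd ρ) :
    ∃ (n : ℕ) (c : ℤ), 0 < n ∧ Frei (kap a b n c r) ∧ Lynd (kap a b n c r) := by
  set α := (sig a r).toAdd with hα
  set β := (sig b r).toAdd with hβ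
  have hα0 : α ≠ 0 := by
    intro h
    exact ha0 (Multiplicative.toAdd.injective h)
  refine ⟨α.natAbs, - α.sign * β, Int.natAbs_pos.2 hα0, ?_⟩
  set n := α.natAbs
  set c := - α.sign * β
  have hn : 0 < n := Int.natAbs_pos.2 hα0
  have h1 : sig b (kap a b n c r) = 1 := by
    rw [sig_kap_b hab]
    apply Multiplicative.toAdd.injective
    rw [toAdd_mul, toAdd_zpow, toAdd_pow, toAdd_one, ← hα, ← hβ]
    simp only [n, c, smul_eq_mul, nsmul_eq_mul, Int.natCast_natAbs]
    have h2 : α.sign * α = |α| := Int.sign_mul_self_eq_abs α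
    linear_combination (-β) * h2
  have h2 := eq_iot h1
  set r' := (Phi b (kap a b n c r)).left with hr'
  have h3 : len r' < len r := lt_of_le_of_lt (Phi_kap_len hab n c r) (cn_lt_len hb (by simp))
  have h4 : r' ≠ 1 := by
    intro h
    rw [h, map_one] at h2
    exact hr (kap_injective hab hn c (by rw [h2, map_one]))
  have h5 := step h4 (fun Z ρ h h' => IH Z ρ h (lt_of_le_of_lt h' h3))
  rw [← h2] at h5
  exact h5

theorem case3_frei {r : FreeGroup X} (hr : r ≠ 1)
    (two : ∀ z, Occ z r → ∃ b, z ≠ b ∧ Occ b r) (hne : ∀ z, Occ z r → sig z r ≠ 1)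
    (IH : ∀ (Z : Type) (ρ : FreeGroup Z), ρ ≠ 1 → len ρ < len r → Frei ρ ∧ Lynd ρ) :
    Frei r := by
  intro a ha w hw
  have hoa := Occ_of_Ess ha
  obtain ⟨b, hab, hob⟩ := two a hoa
  obtain ⟨n, c, hn, hF, -⟩ := exists_kap hr hab hob (hne a hoa) IH
  have h1 : kap a b n c (inc (· ≠ a) w) ∈ NC (kap a b n c r) := (kap_NC hab hn c).2 hw
  obtain ⟨w', hw'⟩ := kap_avoid hab n c w
  rw [← hw'] at h1
  have h2 : Ess a (kap a b n c r) := by
    intro g hg
    have h3 := sig_inc hg
    rw [map_mul, map_mul, map_inv, mul_inv_cancel_comm, sig_kap_a hab] at h3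
    exact hne a hoa h3
  have h3 := hF a h2 w' h1
  rw [h3, map_one] at hw'
  have h4 : inc (· ≠ a) w = 1 := kap_injective hab hn c (by rw [← hw', map_one])
  exact inc_injective _ (by rw [h4, map_one])

theorem case3_lynd {r : FreeGroup X} (hr : r ≠ 1)
    (two : ∀ z, Occ z r → ∃ b, z ≠ b ∧ Occ b r) (hne : ∀ z, Occ z r → sig z r ≠ 1)
    (IH : ∀ (Z : Type) (ρ : FreeGroup Z), ρ ≠ 1 → len ρ < len r → Frei ρ ∧ Lynd ρ) :
    Lynd r := by
  classical
  obtain ⟨a, hoa⟩ := exists_occ hr
  obtain ⟨b, hab, hob⟩ := two a hoa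
  obtain ⟨n, c, hn, -, hL⟩ := exists_kap hr hab hob (hne a hoa) IH
  apply Lynd_of_quot
  intro s hs m hm
  set κ := kap a b n c with hκ
  let θ : (FreeGroup X ⧸ NC r) →* (FreeGroup X ⧸ NC (κ r)) :=
    QuotientGroup.map _ _ κ (fun w hw => (kap_NC hab hn c).2 hw)
  have hθ : ∀ f, θ (QuotientGroup.mk' (NC r) f) = QuotientGroup.mk' (NC (κ r)) (κ f) := fun f => rfl
  have hθi : Function.Injective θ := by
    rw [injective_iff_map_eq_one]
    intro g
    obtain ⟨f, rfl⟩ := QuotientGroup.mk'_surjective (NC r) g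
    intro hf
    rw [hθ] at hf
    exact (QuotientGroup.eq_one_iff _).2 ((kap_NC hab hn c).1 ((QuotientGroup.eq_one_iff _).1 hf))
  have hroot : IsRoot (κ s) (κ r) := by
    obtain ⟨⟨k, hk, hsk⟩, hs2⟩ := hs
    refine ⟨⟨k, hk, by rw [← map_pow, hsk]⟩, fun u l hu => ?_⟩
    have hsa : sig a s ≠ 1 := by
      intro h
      apply hne a hoa
      rw [← hsk, map_pow, h, one_pow]
    obtain ⟨w, hw⟩ := kap_root hab hn c hsa hu
    exact hs2 w l hw
  let ms : (FreeGroup X ⧸ NC (κ r)) → ℚ := fun k => if h : ∃ g, θ g = k then m h.choose else 0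
  have hms : ∀ g, ms (θ g) = m g := by
    intro g
    have h : ∃ g', θ g' = θ g := ⟨g, rfl⟩
    simp only [ms, dif_pos h]
    rw [hθi h.choose_spec]
  have hms0 : ∀ k, (¬ ∃ g, θ g = k) → ms k = 0 := by
    intro k h
    simp only [ms, dif_neg h]
  obtain ⟨δs, hδs, hδr⟩ := hL (FreeGroup X ⧸ NC (κ r)) (QuotientGroup.mk' _)
    (QuotientGroup.ker_mk' _) (κ s) hroot ms (fun k => by
      rw [← hθ]
      by_cases h : ∃ g, θ g = k
      · obtain ⟨g, rfl⟩ := h
        rw [← map_mul, hms, hms, hm]
      · rw [hms0 _ h, hms0]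
        rintro ⟨g, hg⟩
        exact h ⟨g * (QuotientGroup.mk' (NC r) s)⁻¹, by rw [map_mul, hg, map_inv]; group⟩)
  refine ⟨fun f g => δs (κ f) (θ g), ⟨fun f f' g => ?_⟩, ?_⟩
  · rw [map_mul, hδs.mul, ← hθ, ← map_mul]
  · funext g
    show δs (κ r) (θ g) = m g
    rw [hδr, hms]

/-! ### the theorem -/

theorem main_aux (N : ℕ) : ∀ (X : Type) (r : FreeGroup X), r ≠ 1 → len r ≤ N → Frei r ∧ Lynd r := by
  induction N with
  | zero =>
    intro X r hr hl
    have := len_pos hr
    omega
  | succ N ih =>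
    intro X r0 hr0 hl0
    obtain ⟨g, hcr, hlen⟩ := exists_CR r0
    set r := g * r0 * g⁻¹ with hrdef
    have hr : r ≠ 1 := CR_ne hr0
    have hl : len r ≤ N + 1 := hlen.trans hl0
    have IH : ∀ (Z : Type) (ρ : FreeGroup Z), ρ ≠ 1 → len ρ < len r → Frei ρ ∧ Lynd ρ :=
      fun Z ρ h h' => ih Z ρ h (by omega)
    suffices h : Frei r ∧ Lynd r from ⟨Frei_conj h.1, Lynd_conj h.2⟩
    by_cases h1 : ∃ x, ∀ z, Occ z r → z = x
    · obtain ⟨x, hx⟩ := h1
      exact case1 hr hx
    · have two : ∀ z, Occ z r → ∃ b, z ≠ b ∧ Occ b r := by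
        intro z _
        by_contra hcon
        apply h1
        refine ⟨z, fun b hb => ?_⟩
        by_contra hne
        exact hcon ⟨b, fun e => hne e.symm, hb⟩
      by_cases h2 : ∃ t, Occ t r ∧ sig t r = 1
      · obtain ⟨t, ht, hs⟩ := h2
        have h3 := eq_iot hs
        have h4 : len (Phi t r).left < len r :=
          lt_of_le_of_lt (len_Phi_left t r) (cn_lt_len ht (by simp))
        have h5 : (Phi t r).left ≠ 1 := by
          intro h
          rw [h, map_one] at h3
          exact hr h3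
        have h6 := step h5 (fun Z ρ h h' => IH Z ρ h (lt_of_le_of_lt h' h4))
        rw [← h3] at h6
        exact h6
      · have hne : ∀ z, Occ z r → sig z r ≠ 1 := fun z hz h => h2 ⟨z, hz, h⟩
        exact ⟨case3_frei hr two hne IH, case3_lynd hr two hne IH⟩

/-- Magnus' Freiheitssatz: a generator which cannot be removed from a conjugate of the relator is
essential, the other generators are free in the one-relator group. -/
theorem freiheitssatz {r : FreeGroup X} (hr : r ≠ 1) : Frei r := (main_aux _ X r hr le_rfl).1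

/-- Lyndon's identity theorem. -/
theorem lyndon {r : FreeGroup X} (hr : r ≠ 1) : Lynd r := (main_aux _ X r hr le_rfl).2

end

end Pool.Agent.Lyn
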