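import Pool.Agent.Lyn.App

set_option autoImplicit false

/-! Existence of roots; the form for the maximal abelian quotient. -/

namespace Pool.Agent.Lyn

section
variable {X : Type}

theorem len_pow_le (r : FreeGroup X) (n : ℕ) : len (r ^ n) ≤ n * len r := by
  induction n with
  | zero => rw [pow_zero, len_one]; exact Nat.zero_le _
  | succ n ih =>
    rw [pow_succ]
    refine (len_mul _ _).trans ?_
    rw [add_mul, one_mul]
    exact Nat.add_le_add_right ih _

theorem len_pow_CR {r : FreeGroup X} (h : CR r) (n : ℕ) : len (r ^ n) = n * len r := by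
  classical
  unfold len
  have h1 := toWord_pow_CR h n
  rw [h1, List.length_flatten, List.map_replicate, List.sum_replicate]
  simp

theorem exponent_le {r u : FreeGroup X} {k : ℕ} (hr : r ≠ 1) (h : u ^ k = r) : k ≤ len r := by
  have hu : u ≠ 1 := by
    rintro rfl
    exact hr (by rw [← h, one_pow])
  obtain ⟨g, hg, -⟩ := exists_CR u
  set v := g * u * g⁻¹ with hv
  have hv0 : v ≠ 1 := CR_ne hu
  have h1 : ∀ N : ℕ, k * N ≤ N * len r + 2 * len g := by
    intro N
    have h2 : v ^ (k * N) = g * r ^ N * g⁻¹ := by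
      rw [hv, conj_pow, pow_mul, h]
    have h3 : len (v ^ (k * N)) ≤ N * len r + 2 * len g := by
      rw [h2]
      have h4 := len_mul (g * r ^ N) g⁻¹
      have h5 := len_mul g (r ^ N)
      have h6 := len_pow_le r N
      rw [len_inv] at h4
      omega
    rw [len_pow_CR hg] at h3
    have h4 := len_pos hv0
    exact (Nat.le_mul_of_pos_right _ h4).trans h3
  by_contra hcon
  push Not at hcon
  have h2 := h1 (2 * len g + 1)
  have h3 : (len r + 1) * (2 * len g + 1) ≤ k * (2 * len g + 1) := Nat.mul_le_mul_right _ hcon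
  have h4 : (2 * len g + 1) * len r + (2 * len g + 1) ≤ (2 * len g + 1) * len r + 2 * len g := by
    calc _ = (len r + 1) * (2 * len g + 1) := by ring
      _ ≤ _ := h3.trans h2
  omega

theorem exists_root {r : FreeGroup X} (hr : r ≠ 1) : ∃ s, IsRoot s r := by
  classical
  have hex : ∃ n, 0 < n ∧ ∃ s : FreeGroup X, s ^ n = r := ⟨1, one_pos, r, pow_one r⟩
  let Q : ℕ → Prop := fun n => 0 < n ∧ ∃ s : FreeGroup X, s ^ n = r
  have hQ1 : Q 1 := ⟨one_pos, r, pow_one r⟩
  have hb : ∀ n, Q n → n ≤ len r := fun n ⟨_, s, hs⟩ => exponent_le hr hs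
  have h1 := Nat.findGreatest_spec (P := Q) (hb 1 hQ1) hQ1
  set n := Nat.findGreatest Q (len r) with hn
  obtain ⟨hn0, s, hs⟩ := h1
  refine ⟨s, ⟨n, hn0, hs⟩, fun u k hu => ?_⟩
  have hs1 : s ≠ 1 := by
    rintro rfl
    exact hr (by rw [← hs, one_pow])
  have hk : k ≠ 0 := by
    rintro rfl
    exact hs1 (by rw [← hu, pow_zero])
  have h2 : Q (k * n) := ⟨Nat.mul_pos (Nat.pos_of_ne_zero hk) hn0, u, by rw [pow_mul, hu, hs]⟩
  have h3 := Nat.le_findGreatest (hb _ h2) h2
  rw [← hn] at h3
  have h4 : k ≤ 1 := by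
    by_contra hcon
    push Not at hcon
    have : 2 * n ≤ k * n := Nat.mul_le_mul_right _ hcon
    omega
  omega

end

end Pool.Agent.Lyn
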