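import Pool.Agent.Lyn.Words

set_option autoImplicit false

/-! The kernel of an exponent sum: shifts, the isomorphism with the semidirect product. -/

namespace Pool.Agent.Lyn

/-- the free group on the conjugates `t ^ i * y * t ^ (-i)` -/
abbrev FZ {X : Type} (t : X) : Type := FreeGroup ({y : X // y ≠ t} × ℤ)

section
variable {X : Type}

/-- shift of the index -/
def shE {Y : Type} (n : ℤ) : Y × ℤ ≃ Y × ℤ where
  toFun p := (p.1, p.2 + n)
  invFun p := (p.1, p.2 - n)
  left_inv p := by simp
  right_inv p := by simp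

/-- the shift automorphisms -/
def sh (t : X) : Multiplicative ℤ →* MulAut (FZ t) where
  toFun n := FreeGroup.freeGroupCongr (shE n.toAdd)
  map_one' := by
    ext1 w
    have h : (shE (0 : ℤ) : {y : X // y ≠ t} × ℤ ≃ _) = Equiv.refl _ := by
      ext p <;> simp [shE]
    rw [toAdd_one, h, FreeGroup.freeGroupCongr_refl]
    rfl
  map_mul' a b := by
    ext1 w
    have h : (shE (a * b).toAdd : {y : X // y ≠ t} × ℤ ≃ _)
        = (shE b.toAdd).trans (shE a.toAdd) := by
      ext p
      · simp [shE]
      · simp only [shE, toAdd_mul, Equiv.coe_fn_mk, Equiv.trans_apply]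
        ring
    rw [h, ← FreeGroup.freeGroupCongr_trans]
    rfl

theorem sh_of (t : X) (n : Multiplicative ℤ) (p : {y : X // y ≠ t} × ℤ) :
    sh t n (FreeGroup.of p) = FreeGroup.of (p.1, p.2 + n.toAdd) := by
  show FreeGroup.map _ (FreeGroup.of p) = _
  rw [FreeGroup.map.of]
  rfl

theorem sh_eq_map (t : X) (n : Multiplicative ℤ) (w : FZ t) :
    sh t n w = FreeGroup.map (fun p => (p.1, p.2 + n.toAdd)) w := rfl

theorem shE_inj {Y : Type} (n : ℤ) : Function.Injective (fun p : Y × ℤ => (p.1, p.2 + n)) := by
  rintro ⟨a, i⟩ ⟨b, j⟩ h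
  simp only [Prod.mk.injEq, add_left_inj] at h
  exact Prod.ext h.1 h.2

theorem len_sh (t : X) (n : Multiplicative ℤ) (w : FZ t) : len (sh t n w) = len w := by
  classical
  rw [sh_eq_map]
  unfold len
  rw [toWord_map _ (shE_inj _), List.length_map]

theorem Occ_sh {t : X} {n : Multiplicative ℤ} {w : FZ t} {p : {y : X // y ≠ t} × ℤ}
    (h : Occ p w) : Occ (p.1, p.2 + n.toAdd) (sh t n w) := by
  classical
  obtain ⟨e, he⟩ := h
  refine ⟨e, ?_⟩
  rw [sh_eq_map, toWord_map _ (shE_inj _)]
  exact List.mem_map.2 ⟨_, he, rfl⟩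

theorem Occ_sh' {t : X} {n : Multiplicative ℤ} {w : FZ t} {p : {y : X // y ≠ t} × ℤ}
    (h : Occ p (sh t n w)) : Occ (p.1, p.2 - n.toAdd) w := by
  have := Occ_sh (n := n⁻¹) h
  rw [← MulAut.mul_apply, ← map_mul, inv_mul_cancel, map_one, MulAut.one_apply] at this
  simpa [sub_eq_add_neg] using this

theorem CR_sh {t : X} {n : Multiplicative ℤ} {w : FZ t} (h : CR w) : CR (sh t n w) := by
  classical
  unfold CR at h ⊢
  rw [sh_eq_map, toWord_map _ (shE_inj _), FreeGroup.isCyclicallyReduced_iff]
  refine ⟨?_, fun a ha b hb hab => ?_⟩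
  · rw [← toWord_map _ (shE_inj _)]
    exact isRed _
  · simp only [List.getLast?_map, Option.mem_def, Option.map_eq_some_iff] at ha
    simp only [List.head?_map, Option.mem_def, Option.map_eq_some_iff] at hb
    obtain ⟨a', ha', rfl⟩ := ha
    obtain ⟨b', hb', rfl⟩ := hb
    exact h.2 a' ha' b' hb' (shE_inj _ hab)

/-- the embedding of the kernel -/
def iot (t : X) : FZ t →* FreeGroup X :=
  FreeGroup.lift (fun p => FreeGroup.of t ^ p.2 * FreeGroup.of p.1.1 * (FreeGroup.of t ^ p.2)⁻¹)

theorem iot_of (t : X) (p : {y : X // y ≠ t} × ℤ) : iot t (FreeGroup.of p) =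
    FreeGroup.of t ^ p.2 * FreeGroup.of p.1.1 * (FreeGroup.of t ^ p.2)⁻¹ := by
  unfold iot
  rw [FreeGroup.lift_apply_of]

open Classical in
/-- the isomorphism with the semidirect product -/
noncomputable def Phi (t : X) : FreeGroup X →* FZ t ⋊[sh t] Multiplicative ℤ :=
  FreeGroup.lift (fun x => if h : x = t then SemidirectProduct.inr (Multiplicative.ofAdd 1)
    else SemidirectProduct.inl (FreeGroup.of (⟨x, h⟩, 0)))

theorem Phi_t (t : X) : Phi t (FreeGroup.of t) = SemidirectProduct.inr (Multiplicative.ofAdd 1) := by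
  unfold Phi
  rw [FreeGroup.lift_apply_of, dif_pos rfl]

theorem Phi_of (t : X) (y : {y : X // y ≠ t}) :
    Phi t (FreeGroup.of y.1) = SemidirectProduct.inl (FreeGroup.of (y, 0)) := by
  unfold Phi
  rw [FreeGroup.lift_apply_of, dif_neg y.2]

theorem Phi_iot (t : X) (w : FZ t) : Phi t (iot t w) = SemidirectProduct.inl w := by
  have : (Phi t).comp (iot t) = SemidirectProduct.inl := by
    apply FreeGroup.ext_hom
    intro p
    rw [MonoidHom.comp_apply, iot_of, map_mul, map_mul, map_inv, map_zpow, Phi_t, Phi_of,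
      ← map_zpow, ← map_inv, ← SemidirectProduct.inl_aut, sh_of]
    congr 2
    ext <;> simp
  exact congrArg (fun f => f w) this

theorem iot_injective (t : X) : Function.Injective (iot t) := by
  intro a b h
  have := congrArg (Phi t) h
  rw [Phi_iot, Phi_iot] at this
  exact SemidirectProduct.inl_injective this

theorem Phi_right (t : X) (f : FreeGroup X) : (Phi t f).right = sig t f := by
  classical
  have : SemidirectProduct.rightHom.comp (Phi t) = sig t := by
    apply FreeGroup.ext_hom
    intro x
    rw [MonoidHom.comp_apply]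
    unfold sig
    rw [FreeGroup.lift_apply_of]
    by_cases h : x = t
    · subst h
      rw [Phi_t, if_pos rfl, SemidirectProduct.rightHom_inr]
    · rw [Phi_of t ⟨x, h⟩, if_neg h, SemidirectProduct.rightHom_inl]
  exact congrArg (fun f' => f' f) this

theorem iot_sh (t : X) (n : Multiplicative ℤ) (w : FZ t) : iot t (sh t n w) =
    FreeGroup.of t ^ n.toAdd * iot t w * (FreeGroup.of t ^ n.toAdd)⁻¹ := by
  have : (iot t).comp (sh t n).toMonoidHom
      = (MulAut.conj (FreeGroup.of t ^ n.toAdd)).toMonoidHom.comp (iot t) := by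
    apply FreeGroup.ext_hom
    intro p
    simp only [MonoidHom.comp_apply, MulEquiv.coe_toMonoidHom, MulAut.conj_apply, sh_of, iot_of]
    rw [add_comm p.2, zpow_add]
    group
  exact congrArg (fun f' => f' w) this

theorem iot_left (t : X) (f : FreeGroup X) :
    f = iot t (Phi t f).left * FreeGroup.of t ^ (sig t f).toAdd := by
  let Ψ : FZ t ⋊[sh t] Multiplicative ℤ →* FreeGroup X :=
    SemidirectProduct.lift (iot t) (zpowersHom _ (FreeGroup.of t)) (by
      intro n
      ext1 w
      simp only [MonoidHom.comp_apply, MulEquiv.coe_toMonoidHom, MulAut.conj_apply]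
      rw [iot_sh]
      rfl)
  have h1 : Ψ.comp (Phi t) = MonoidHom.id _ := by
    apply FreeGroup.ext_hom
    intro x
    rw [MonoidHom.comp_apply]
    by_cases h : x = t
    · subst h
      rw [Phi_t, SemidirectProduct.lift_inr]
      simp
    · rw [Phi_of t ⟨x, h⟩, SemidirectProduct.lift_inl, iot_of]
      simp
  have h2 : Ψ (Phi t f) = f := congrArg (fun f' => f' f) h1
  conv_lhs => rw [← h2]
  rw [← SemidirectProduct.inl_left_mul_inr_right (Phi t f), map_mul, SemidirectProduct.lift_inl,
    SemidirectProduct.lift_inr]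
  simp [Phi_right]

theorem eq_iot {t : X} {f : FreeGroup X} (h : sig t f = 1) : f = iot t (Phi t f).left := by
  conv_lhs => rw [iot_left t f, h]
  simp

theorem sig_iot (t : X) (w : FZ t) : sig t (iot t w) = 1 := by
  rw [← Phi_right, Phi_iot, SemidirectProduct.right_inl]

theorem sig_of_NC {t : X} {r : FreeGroup X} (h : sig t r = 1) {w : FreeGroup X} (hw : w ∈ NC r) :
    sig t w = 1 := NC_ker_of (sig t) h hw

theorem len_mul (v w : FreeGroup X) : len (v * w) ≤ len v + len w := by
  classical
  exact FreeGroup.norm_mul_le v w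

theorem len_inv (v : FreeGroup X) : len v⁻¹ = len v := by
  classical
  exact FreeGroup.norm_inv_eq

theorem len_one : len (1 : FreeGroup X) = 0 := by
  classical
  exact FreeGroup.norm_one

theorem len_of (x : X) : len (FreeGroup.of x) = 1 := by
  classical
  exact FreeGroup.norm_of x

theorem len_left_inv {t : X} (a : FZ t ⋊[sh t] Multiplicative ℤ) : len a⁻¹.left = len a.left := by
  rw [SemidirectProduct.inv_left, len_sh, len_inv]

theorem len_left_mul {t : X} (a b : FZ t ⋊[sh t] Multiplicative ℤ) :
    len (a * b).left ≤ len a.left + len b.left := by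
  rw [SemidirectProduct.mul_left]
  refine (len_mul _ _).trans ?_
  rw [len_sh]

theorem len_left (t : X) (Θ : FreeGroup X →* FZ t ⋊[sh t] Multiplicative ℤ)
    (ht : (Θ (FreeGroup.of t)).left = 1) (hy : ∀ y, y ≠ t → len (Θ (FreeGroup.of y)).left ≤ 1)
    (f : FreeGroup X) : len (Θ f).left ≤ cn (· ≠ t) f := by
  classical
  have key : ∀ L : List (X × Bool), len (Θ (FreeGroup.mk L)).left
      ≤ L.countP (fun q => decide (q.1 ≠ t)) := by
    intro L
    induction L with
    | nil =>
      have : FreeGroup.mk ([] : List (X × Bool)) = 1 := rfl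
      rw [this, map_one, SemidirectProduct.one_left, len_one]
      exact Nat.zero_le _
    | cons q L ih =>
      have h1 : FreeGroup.mk (q :: L) = FreeGroup.mk [q] * FreeGroup.mk L := by
        rw [FreeGroup.mul_mk]; rfl
      rw [h1, map_mul, List.countP_cons]
      refine (len_left_mul _ _).trans ?_
      rw [add_comm]
      refine Nat.add_le_add ih ?_
      obtain ⟨x, e⟩ := q
      have h2 : len (Θ (FreeGroup.mk [(x, e)])).left = len (Θ (FreeGroup.of x)).left := by
        cases e with
        | true => rfl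
        | false =>
          have : FreeGroup.mk [(x, false)] = (FreeGroup.of x)⁻¹ := rfl
          rw [this, map_inv, len_left_inv]
      rw [h2]
      by_cases hx : x = t
      · subst hx
        rw [ht, len_one]
        exact Nat.zero_le _
      · simp only [ne_eq, hx, not_false_eq_true, decide_true, if_true]
        exact hy x hx
  have := key f.toWord
  rw [FreeGroup.mk_toWord] at this
  unfold cn
  convert this

theorem len_Phi_left (t : X) (f : FreeGroup X) : len (Phi t f).left ≤ cn (· ≠ t) f := by
  apply len_left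
  · rw [Phi_t, SemidirectProduct.left_inr]
  · intro y hy
    rw [Phi_of t ⟨y, hy⟩, SemidirectProduct.left_inl, len_of]

/-- avoidance of a generator -/
theorem left_avoid {t : X} (x : {y : X // y ≠ t}) {f : FreeGroup X}
    (hf : f ∈ (inc (· ≠ x.1)).range) :
    (Phi t f).left ∈ (inc (fun p : {y : X // y ≠ t} × ℤ => p.1 ≠ x)).range := by
  set N := (inc (fun p : {y : X // y ≠ t} × ℤ => p.1 ≠ x)).range with hN
  have hsh : ∀ (n : Multiplicative ℤ) (w : FZ t), w ∈ N → sh t n w ∈ N := by
    intro n w hw
    rw [hN, mem_range_inc] at hw ⊢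
    intro p hp
    exact hw (p.1, p.2 - n.toAdd) (Occ_sh' hp)
  let S : Subgroup (FZ t ⋊[sh t] Multiplicative ℤ) :=
    { carrier := {a | a.left ∈ N}
      mul_mem' := by
        intro a b ha hb
        show (a * b).left ∈ N
        rw [SemidirectProduct.mul_left]
        exact mul_mem ha (hsh _ _ hb)
      one_mem' := one_mem N
      inv_mem' := by
        intro a ha
        show a⁻¹.left ∈ N
        rw [SemidirectProduct.inv_left]
        exact hsh _ _ (inv_mem ha) }
  obtain ⟨v, rfl⟩ := hf
  have : ∀ v : FreeGroup {y // y ≠ x.1}, Phi t (inc (· ≠ x.1) v) ∈ S := by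
    intro v
    induction v using FreeGroup.induction_on with
    | C1 => rw [map_one, map_one]; exact one_mem S
    | of y =>
      unfold inc
      rw [FreeGroup.map.of]
      by_cases h : y.1 = t
      · rw [h, Phi_t]
        exact one_mem N
      · rw [Phi_of t ⟨y.1, h⟩]
        show FreeGroup.of _ ∈ N
        rw [hN]
        refine ⟨FreeGroup.of ⟨(⟨y.1, h⟩, 0), ?_⟩, ?_⟩
        · intro h'
          exact y.2 (congrArg Subtype.val h')
        · unfold inc
          rw [FreeGroup.map.of]
    | inv_of y ih => rw [map_inv, map_inv]; exact inv_mem ih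
    | mul a b ha hb => rw [map_mul, map_mul]; exact mul_mem ha hb
  exact this v

end

end Pool.Agent.Lyn
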