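import Pool.Agent.Lyn.Shift

set_option autoImplicit false

/-! The HNN step: the group of the shifted relator, derivations. -/

namespace Pool.Agent.Lyn

section
variable {X : Type} {t : X}

/-- letters of the finite level -/
def PX (x : {y : X // y ≠ t}) (M : ℤ) (p : {y : X // y ≠ t} × ℤ) : Prop :=
  p.1 = x → 0 ≤ p.2 ∧ p.2 ≤ M

/-- generators of the finite level -/
abbrev G0 (x : {y : X // y ≠ t}) (M : ℤ) : Type := {p : {y : X // y ≠ t} × ℤ // PX x M p}

variable {x : {y : X // y ≠ t}} {M : ℤ}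

def topG (hM : 0 ≤ M) : G0 x M := ⟨(x, M), fun _ => ⟨hM, le_rfl⟩⟩

def botG (hM : 0 ≤ M) : G0 x M := ⟨(x, 0), fun _ => ⟨le_rfl, hM⟩⟩

theorem PX_zero (hM : 0 ≤ M) (y : {y : X // y ≠ t}) : PX x M (y, 0) := fun _ => ⟨le_rfl, hM⟩

theorem G0_induct {Q : G0 x M → Prop} (h0 : ∀ y h, Q ⟨(y, 0), h⟩)
    (hs : ∀ y i h h', Q ⟨(y, i), h⟩ ↔ Q ⟨(y, i + 1), h'⟩) : ∀ p, Q p := by
  rintro ⟨⟨y, i⟩, h⟩
  by_cases hy : y = x
  · have hi : 0 ≤ i := (h hy).1
    have key : ∀ i : ℤ, 0 ≤ i → ∀ h : PX x M (y, i), Q ⟨(y, i), h⟩ := by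
      intro i hi
      induction i, hi using Int.leInduction with
      | base => intro h; exact h0 y h
      | succ n hn ih =>
        intro h
        have hn' : PX x M (y, n) := fun e => ⟨hn, by have := (h e).2; simp only at this; linarith⟩
        exact (hs y n hn' h).1 (ih hn')
    exact key i hi h
  · have hP : ∀ i : ℤ, PX x M (y, i) := fun i e => absurd e hy
    have key : ∀ i : ℤ, Q ⟨(y, i), hP i⟩ := by
      intro i
      induction i using Int.induction_on with
      | zero => exact h0 y _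
      | succ n ih => exact (hs y n _ _).1 ih
      | pred n ih =>
        refine (hs y (-(n : ℤ) - 1) _ ?_).2 ?_
        · exact hP _
        · have : (-(n : ℤ) - 1 + 1) = -n := by ring
          simp only [this]
          exact ih
    exact key i

/-- the shift of generators -/
def shA (hM : 0 ≤ M) : {q : G0 x M // q ≠ topG hM} ≃ {q : G0 x M // q ≠ botG hM} where
  toFun q := ⟨⟨(q.1.1.1, q.1.1.2 + 1), by
      intro e
      have h1 := q.1.2 e
      have h2 : q.1.1.2 ≠ M := by
        intro h
        apply q.2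
        apply Subtype.ext
        exact Prod.ext e h
      simp only
      omega⟩, by
      intro h
      have h1 : q.1.1.1 = x := congrArg (fun q : G0 x M => q.1.1) h
      have h2 : q.1.1.2 + 1 = 0 := congrArg (fun q : G0 x M => q.1.2) h
      have h3 := (q.1.2 h1).1
      omega⟩
  invFun q := ⟨⟨(q.1.1.1, q.1.1.2 - 1), by
      intro e
      have h1 := q.1.2 e
      have h2 : q.1.1.2 ≠ 0 := by
        intro h
        apply q.2
        apply Subtype.ext
        exact Prod.ext e h
      simp only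
      omega⟩, by
      intro h
      have h1 : q.1.1.1 = x := congrArg (fun q : G0 x M => q.1.1) h
      have h2 : q.1.1.2 - 1 = M := congrArg (fun q : G0 x M => q.1.2) h
      have h3 := (q.1.2 h1).2
      omega⟩
  left_inv q := by
    apply Subtype.ext
    apply Subtype.ext
    simp
  right_inv q := by
    apply Subtype.ext
    apply Subtype.ext
    simp

theorem iot_succ (t : X) (y : {y : X // y ≠ t}) (i : ℤ) : iot t (FreeGroup.of (y, i + 1)) =
    FreeGroup.of t * iot t (FreeGroup.of (y, i)) * (FreeGroup.of t)⁻¹ := by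
  rw [iot_of, iot_of]
  simp only
  rw [add_comm, zpow_add, zpow_one]
  group

theorem hnn_step (hM : 0 ≤ M) (r0 : FreeGroup (G0 x M))
    (hA : ∀ w : FreeGroup {q : G0 x M // q ≠ topG hM}, inc (· ≠ topG hM) w ∈ NC r0 → w = 1)
    (hB : ∀ w : FreeGroup {q : G0 x M // q ≠ botG hM}, inc (· ≠ botG hM) w ∈ NC r0 → w = 1)
    (w : FreeGroup (G0 x M)) (hw : iot t (inc (PX x M) w) ∈ NC (iot t (inc (PX x M) r0))) :
    w ∈ NC r0 := by
  classical
  let H := FreeGroup (G0 x M) ⧸ NC r0
  let q : FreeGroup (G0 x M) →* H := QuotientGroup.mk' (NC r0)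
  let a : FreeGroup {q : G0 x M // q ≠ topG hM} →* H := q.comp (inc (· ≠ topG hM))
  let b : FreeGroup {q : G0 x M // q ≠ botG hM} →* H := q.comp (inc (· ≠ botG hM))
  have ha : Function.Injective a := by
    rw [injective_iff_map_eq_one]
    intro v hv
    exact hA v ((QuotientGroup.eq_one_iff _).1 hv)
  have hb : Function.Injective b := by
    rw [injective_iff_map_eq_one]
    intro v hv
    exact hB v ((QuotientGroup.eq_one_iff _).1 hv)
  let φ : a.range ≃* b.range :=
    ((MonoidHom.ofInjective ha).symm.trans (FreeGroup.freeGroupCongr (shA hM))).trans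
      (MonoidHom.ofInjective hb)
  let E := HNNExtension H a.range b.range φ
  let T : E := HNNExtension.t
  let o : H →* E := HNNExtension.of
  have hT : ∀ v, T * o (a v) = o (b (FreeGroup.freeGroupCongr (shA hM) v)) * T := by
    intro v
    have h1 := HNNExtension.t_mul_of (φ := φ) ⟨a v, v, rfl⟩
    have h2 : ((φ ⟨a v, v, rfl⟩ : b.range) : H) = b (FreeGroup.freeGroupCongr (shA hM) v) := by
      have : (⟨a v, v, rfl⟩ : a.range) = MonoidHom.ofInjective ha v := rfl
      rw [this]
      simp only [φ, MulEquiv.trans_apply, MulEquiv.symm_apply_apply]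
      rfl
    rw [h2] at h1
    exact h1
  let g : FreeGroup X →* E := FreeGroup.lift
    (fun y => if h : y = t then T else o (q (FreeGroup.of ⟨(⟨y, h⟩, 0), PX_zero hM _⟩)))
  have hgt : g (FreeGroup.of t) = T := by
    simp only [g, FreeGroup.lift_apply_of, dite_true]
  have hgy : ∀ y : {y : X // y ≠ t}, g (FreeGroup.of y.1)
      = o (q (FreeGroup.of ⟨(y, 0), PX_zero hM _⟩)) := by
    intro y
    simp only [g, FreeGroup.lift_apply_of]
    rw [dif_neg y.2]
  have key : ∀ p : G0 x M, g (iot t (FreeGroup.of p.1)) = o (q (FreeGroup.of p)) := by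
    apply G0_induct
    · intro y h
      rw [iot_of]
      simp only [zpow_zero, one_mul, inv_one, mul_one]
      exact hgy y
    · intro y i h h'
      have hne : (⟨(y, i), h⟩ : G0 x M) ≠ topG hM := by
        intro e
        have e1 : y = x := congrArg (fun q : G0 x M => q.1.1) e
        have e2 : i = M := congrArg (fun q : G0 x M => q.1.2) e
        have := (h' e1).2
        simp only at this
        omega
      have h3 := hT (FreeGroup.of ⟨⟨(y, i), h⟩, hne⟩)
      have h4 : a (FreeGroup.of ⟨⟨(y, i), h⟩, hne⟩) = q (FreeGroup.of ⟨(y, i), h⟩) := by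
        simp only [a, MonoidHom.comp_apply, inc, FreeGroup.map.of]
      have h5 : b (FreeGroup.freeGroupCongr (shA hM) (FreeGroup.of ⟨⟨(y, i), h⟩, hne⟩))
          = q (FreeGroup.of ⟨(y, i + 1), h'⟩) := by
        simp only [b, MonoidHom.comp_apply, inc]
        rfl
      rw [h4, h5] at h3
      have h6 : T * o (q (FreeGroup.of ⟨(y, i), h⟩)) * T⁻¹ = o (q (FreeGroup.of ⟨(y, i + 1), h'⟩)) := by
        rw [h3, mul_inv_cancel_right]
      show g (iot t (FreeGroup.of (y, i))) = _ ↔ g (iot t (FreeGroup.of (y, i + 1))) = _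
      rw [iot_succ, map_mul, map_mul, map_inv, hgt, ← h6]
      constructor
      · intro h7
        rw [h7]
      · intro h7
        exact mul_left_cancel (mul_right_cancel h7)
  have key2 : ∀ w, g (iot t (inc (PX x M) w)) = o (q w) := by
    intro w
    have : (g.comp (iot t)).comp (inc (PX x M)) = o.comp q := by
      apply FreeGroup.ext_hom
      intro p
      simp only [MonoidHom.comp_apply, inc, FreeGroup.map.of]
      exact key p
    exact congrArg (fun f => f w) this
  have h1 : NC (iot t (inc (PX x M) r0)) ≤ g.ker := by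
    apply NC_ker_of
    rw [key2]
    have : q r0 = 1 := (QuotientGroup.eq_one_iff _).2 (mem_NC r0)
    rw [this, map_one]
  have h2 : g (iot t (inc (PX x M) w)) = 1 := h1 hw
  rw [key2] at h2
  have h3 : q w = 1 := by
    apply HNNExtension.of_injective (φ := φ)
    rw [map_one]
    exact h2
  exact (QuotientGroup.eq_one_iff _).1 h3

theorem deriv_step (hM : 0 ≤ M) {K : Type} [Group K] (j : FreeGroup X →* K)
    (hA : Function.Injective (((j.comp (iot t)).comp (inc (PX x M))).comp (inc (· ≠ topG hM))))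
    (δ0 : FreeGroup (G0 x M) → K → ℚ)
    (hδ0 : IsDeriv ((j.comp (iot t)).comp (inc (PX x M))) δ0) :
    ∃ δ : FreeGroup X → K → ℚ, IsDeriv j δ ∧ ∀ w, δ (iot t (inc (PX x M) w)) = δ0 w := by
  classical
  set j0 : FreeGroup (G0 x M) →* K := (j.comp (iot t)).comp (inc (PX x M)) with hj0
  set τ := j (FreeGroup.of t) with hτ
  let e : FreeGroup {q : G0 x M // q ≠ topG hM} →* FreeGroup (G0 x M) :=
    (inc (· ≠ botG hM)).comp (FreeGroup.freeGroupCongr (shA hM)).toMonoidHom
  have he : ∀ v, j0 (e v) = τ * j0 (inc (· ≠ topG hM) v) * τ⁻¹ := by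
    intro v
    have : j0.comp e = (MulAut.conj τ).toMonoidHom.comp (j0.comp (inc (· ≠ topG hM))) := by
      apply FreeGroup.ext_hom
      intro p
      simp only [MonoidHom.comp_apply, MulEquiv.coe_toMonoidHom, MulAut.conj_apply]
      have h1 : e (FreeGroup.of p) = FreeGroup.of (shA hM p).1 := rfl
      have h2 : inc (· ≠ topG hM) (FreeGroup.of p) = FreeGroup.of p.1 := rfl
      rw [h1, h2]
      have h3 : ∀ p : G0 x M, j0 (FreeGroup.of p) = j (iot t (FreeGroup.of p.1)) := fun p => rfl
      rw [h3, h3]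
      have h4 : (shA hM p).1.1 = (p.1.1.1, p.1.1.2 + 1) := rfl
      rw [h4, iot_succ, map_mul, map_mul, map_inv]
    exact congrArg (fun f => f v) this
  have hd : IsDeriv (j0.comp (inc (· ≠ topG hM)))
      (fun v k => δ0 (e v) (k * τ⁻¹) - δ0 (inc (· ≠ topG hM) v) k) := by
    refine ⟨fun v v' k => ?_⟩
    rw [map_mul, map_mul, hδ0.mul, hδ0.mul, he]
    have : k * τ⁻¹ * (τ * j0 (inc (· ≠ topG hM) v) * τ⁻¹)
        = k * (j0.comp (inc (· ≠ topG hM))) v * τ⁻¹ := by
      show k * τ⁻¹ * (τ * j0 (inc (· ≠ topG hM) v) * τ⁻¹) = k * j0 (inc (· ≠ topG hM) v) * τ⁻¹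
      group
    rw [this]
    show _ = _ + (δ0 (e v') (k * (j0.comp (inc (· ≠ topG hM))) v * τ⁻¹)
      - δ0 (inc (· ≠ topG hM) v') (k * j0 (inc (· ≠ topG hM) v)))
    ring
  obtain ⟨u, hu⟩ := inner (j0.comp (inc (· ≠ topG hM))) hA _ hd
  obtain ⟨δ, hδ, hδg⟩ := exists_deriv j (fun y => if h : y = t then fun k => - u (k * τ)
    else δ0 (FreeGroup.of ⟨(⟨y, h⟩, 0), PX_zero hM _⟩))
  have hδt : δ (FreeGroup.of t) = fun k => - u (k * τ) := by
    rw [hδg, dif_pos rfl]
  have hδy : ∀ y : {y : X // y ≠ t}, δ (FreeGroup.of y.1)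
      = δ0 (FreeGroup.of ⟨(y, 0), PX_zero hM _⟩) := by
    intro y
    rw [hδg, dif_neg y.2]
  refine ⟨δ, hδ, ?_⟩
  have key : ∀ p : G0 x M, δ (iot t (FreeGroup.of p.1)) = δ0 (FreeGroup.of p) := by
    apply G0_induct
    · intro y h
      rw [iot_of]
      simp only [zpow_zero, one_mul, inv_one, mul_one]
      exact hδy y
    · intro y i h h'
      have hne : (⟨(y, i), h⟩ : G0 x M) ≠ topG hM := by
        intro e
        have e1 : y = x := congrArg (fun q : G0 x M => q.1.1) e
        have e2 : i = M := congrArg (fun q : G0 x M => q.1.2) e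
        have := (h' e1).2
        simp only at this
        omega
      have h1 : e (FreeGroup.of ⟨⟨(y, i), h⟩, hne⟩) = FreeGroup.of ⟨(y, i + 1), h'⟩ := rfl
      have h2 : inc (· ≠ topG hM) (FreeGroup.of ⟨⟨(y, i), h⟩, hne⟩) = FreeGroup.of ⟨(y, i), h⟩ := rfl
      have h3 := hu (FreeGroup.of ⟨⟨(y, i), h⟩, hne⟩)
      simp only [MonoidHom.comp_apply, h1, h2] at h3
      have h4 : j0 (FreeGroup.of ⟨(y, i), h⟩) = j (iot t (FreeGroup.of (y, i))) := rfl
      rw [h4] at h3
      -- value on the conjugate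
      have h5 : ∀ k, δ (iot t (FreeGroup.of (y, i + 1))) k
          = - u (k * τ) + δ (iot t (FreeGroup.of (y, i))) (k * τ)
            + u (k * τ * j (iot t (FreeGroup.of (y, i)))) := by
        intro k
        rw [iot_succ, hδ.mul, hδ.mul, hδ.inv, hδt, map_mul]
        simp only [← hτ]
        have : k * (τ * j (iot t (FreeGroup.of (y, i)))) * τ⁻¹ * τ
            = k * τ * j (iot t (FreeGroup.of (y, i))) := by group
        rw [this]
        ring
      have h6 : ∀ k, δ0 (FreeGroup.of ⟨(y, i + 1), h'⟩) k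
          = - u (k * τ) + δ0 (FreeGroup.of ⟨(y, i), h⟩) (k * τ)
            + u (k * τ * j (iot t (FreeGroup.of (y, i)))) := by
        intro k
        have := h3 (k * τ)
        rw [mul_inv_cancel_right] at this
        linarith
      constructor
      · intro h7
        funext k
        show δ (iot t (FreeGroup.of (y, i + 1))) k = _
        rw [h5, h6]
        have h8 : δ (iot t (FreeGroup.of (y, i))) = δ0 (FreeGroup.of ⟨(y, i), h⟩) := h7
        rw [h8]
      · intro h7
        funext k
        show δ (iot t (FreeGroup.of (y, i))) k = _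
        have h8 : δ (iot t (FreeGroup.of (y, i + 1))) = δ0 (FreeGroup.of ⟨(y, i + 1), h'⟩) := h7
        have h9 := congrFun h8 (k * τ⁻¹)
        rw [h5, h6, inv_mul_cancel_right] at h9
        linarith
  intro w
  have h1 : IsDeriv j0 (fun w => δ (iot t (inc (PX x M) w))) := hδ.comp ((iot t).comp (inc (PX x M)))
  have h2 := h1.ext_gen hδ0 (fun p => key p)
  exact congrFun h2 w

end

end Pool.Agent.Lyn
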