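import Pool.Agent.Lyn.StepA

set_option autoImplicit false

/-! The induction step for relators of exponent sum zero. -/

namespace Pool.Agent.Lyn

section
variable {X : Type} {t : X}

theorem range_norm {r' : FZ t} {x : {y : X // y ≠ t}} {i0 : ℤ} (hx : Occ (x, i0) r') :
    ∃ (n M : ℤ), 0 ≤ M ∧ (∀ i, Occ (x, i) (sh t (Multiplicative.ofAdd n) r') → 0 ≤ i ∧ i ≤ M) ∧
      Occ (x, 0) (sh t (Multiplicative.ofAdd n) r') ∧
      Occ (x, M) (sh t (Multiplicative.ofAdd n) r') := by
  classical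
  let S : Finset ℤ := (r'.toWord.toFinset.filter (fun q => q.1.1 = x)).image (fun q => q.1.2)
  have hS : ∀ i, i ∈ S ↔ Occ (x, i) r' := by
    intro i
    simp only [S, Finset.mem_image, Finset.mem_filter, List.mem_toFinset]
    constructor
    · rintro ⟨⟨⟨y, k⟩, e⟩, ⟨h1, h2⟩, h3⟩
      simp only at h2 h3
      subst h2 h3
      exact ⟨e, by convert h1⟩
    · rintro ⟨e, he⟩
      exact ⟨((x, i), e), ⟨by convert he, rfl⟩, rfl⟩
  have hne : S.Nonempty := ⟨i0, (hS i0).2 hx⟩
  refine ⟨- S.min' hne, S.max' hne - S.min' hne, ?_, ?_, ?_, ?_⟩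
  · have := S.min'_le _ (S.max'_mem hne)
    omega
  · intro i hi
    have h1 := Occ_sh' hi
    simp only [toAdd_ofAdd, sub_neg_eq_add] at h1
    have h2 := (hS _).2 h1
    have h3 := S.min'_le _ h2
    have h4 := S.le_max' _ h2
    constructor <;> omega
  · have h1 := (hS _).1 (S.min'_mem hne)
    have h2 := Occ_sh (n := Multiplicative.ofAdd (- S.min' hne)) h1
    simpa using h2
  · have h1 := (hS _).1 (S.max'_mem hne)
    have h2 := Occ_sh (n := Multiplicative.ofAdd (- S.min' hne)) h1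
    simpa [sub_eq_add_neg] using h2

theorem level {r' : FZ t} (hcr : CR r') {x : {y : X // y ≠ t}} {i0 : ℤ} (hx : Occ (x, i0) r')
    (IH : ∀ (Z : Type) (ρ : FreeGroup Z), ρ ≠ 1 → len ρ ≤ len r' → Frei ρ ∧ Lynd ρ) :
    ∃ (n M : ℤ) (hM : 0 ≤ M) (r0 : FreeGroup (G0 x M)),
      inc (PX x M) r0 = sh t (Multiplicative.ofAdd n) r' ∧ CR r0 ∧ Occ (botG hM) r0 ∧
      Frei r0 ∧ Lynd r0 ∧
      (∀ w : FreeGroup {q : G0 x M // q ≠ topG hM}, inc (· ≠ topG hM) w ∈ NC r0 → w = 1) ∧
      (∀ w, iot t (inc (PX x M) w) ∈ NC (iot t (inc (PX x M) r0)) → w ∈ NC r0) := by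
  obtain ⟨n, M, hM, h1, h2, h3⟩ := range_norm hx
  have h4 : sh t (Multiplicative.ofAdd n) r' ∈ (inc (PX x M)).range := by
    rw [mem_range_inc]
    rintro ⟨y, i⟩ hy e
    simp only at e
    subst e
    exact h1 i hy
  obtain ⟨r0, hr0⟩ := h4
  have h5 : CR r0 := by
    rw [← CR_inc, hr0]
    exact CR_sh hcr
  have h6 : Occ (botG hM) r0 := by
    have := (Occ_inc (w := r0) (y := botG hM)).1
    rw [hr0] at this
    exact this h2
  have h7 : Occ (topG hM) r0 := by
    have := (Occ_inc (w := r0) (y := topG hM)).1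
    rw [hr0] at this
    exact this h3
  have h8 : r0 ≠ 1 := by
    rintro rfl
    exact not_occ_one _ h6
  have h9 : len r0 = len r' := by
    rw [← len_inc, hr0, len_sh]
  obtain ⟨h10, h11⟩ := IH _ r0 h8 h9.le
  have h12 := h10 _ (Ess_of_CR h5 h7)
  have h13 := h10 _ (Ess_of_CR h5 h6)
  exact ⟨n, M, hM, r0, hr0, h5, h6, h10, h11, h12, hnn_step hM r0 h12 h13⟩

theorem NC_iot_sh (n : ℤ) (r' : FZ t) :
    NC (iot t (sh t (Multiplicative.ofAdd n) r')) = NC (iot t r') := by
  rw [iot_sh, NC_conj]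

theorem iot_avoid {x : {y : X // y ≠ t}} {v : FZ t} (h : ∀ i, ¬ Occ (x, i) v) :
    iot t v ∈ (inc (· ≠ x.1)).range := by
  have h1 : v ∈ (inc (fun p : {y : X // y ≠ t} × ℤ => p.1 ≠ x)).range := by
    rw [mem_range_inc]
    rintro ⟨y, i⟩ hy e
    simp only at e
    subst e
    exact h i hy
  obtain ⟨v', rfl⟩ := h1
  have ht : FreeGroup.of t ∈ (inc (· ≠ x.1)).range :=
    ⟨FreeGroup.of ⟨t, x.2.symm⟩, by unfold inc; rw [FreeGroup.map.of]⟩
  induction v' using FreeGroup.induction_on with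
  | C1 => rw [map_one, map_one]; exact one_mem _
  | of p =>
    unfold inc
    rw [FreeGroup.map.of, iot_of]
    refine mul_mem (mul_mem (zpow_mem ht _) ?_) (inv_mem (zpow_mem ht _))
    exact ⟨FreeGroup.of ⟨p.1.1.1, fun e => p.2 (Subtype.ext e)⟩, FreeGroup.map.of⟩
  | inv_of p ih => rw [map_inv, map_inv]; exact inv_mem (ih (by
      intro i hi
      obtain ⟨q, hq⟩ : ∃ q : {p : {y : X // y ≠ t} × ℤ // p.1 ≠ x}, q.1 = (x, i) := by
        have := (mem_range_inc (P := fun p : {y : X // y ≠ t} × ℤ => p.1 ≠ x)).1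
          ⟨FreeGroup.of p, rfl⟩ _ hi
        exact absurd rfl this
      exact q.2 (by rw [hq])))
  | mul a b ha hb =>
    have key : ∀ c, ∀ i, ¬ Occ (x, i) ((inc (fun p : {y : X // y ≠ t} × ℤ => p.1 ≠ x)) c) := by
      intro c i hi
      have := (mem_range_inc (P := fun p : {y : X // y ≠ t} × ℤ => p.1 ≠ x)).1 ⟨c, rfl⟩ _ hi
      exact this rfl
    rw [map_mul, map_mul]
    exact mul_mem (ha (key a)) (hb (key b))

theorem frei_step {r' : FZ t} (hcr : CR r') (hr' : r' ≠ 1)
    (IH : ∀ (Z : Type) (ρ : FreeGroup Z), ρ ≠ 1 → len ρ ≤ len r' → Frei ρ ∧ Lynd ρ) :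
    Frei (iot t r') := by
  intro z hz w hw
  by_cases hzt : z = t
  · subst hzt
    obtain ⟨⟨x, i0⟩, hx⟩ := exists_occ hr'
    obtain ⟨n, M, hM, r0, hr0, h5, h6, h10, h11, h12, h13⟩ := level hcr hx IH
    rw [← NC_iot_sh n, ← hr0] at hw
    let f : {y : X // y ≠ z} → G0 x M := fun y => ⟨(y, 0), PX_zero hM y⟩
    have hf : Function.Injective f := by
      intro a b hab
      exact congrArg (fun q : G0 x M => q.1.1) hab
    have h14 : ∀ w, inc (· ≠ z) w = iot z (inc (PX x M) (FreeGroup.map f w)) := by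
      intro w
      have : inc (· ≠ z) = ((iot z).comp (inc (PX x M))).comp (FreeGroup.map f) := by
        apply FreeGroup.ext_hom
        intro y
        simp only [MonoidHom.comp_apply, inc, FreeGroup.map.of, iot_of, f]
        simp
      exact congrArg (fun f => f w) this
    rw [h14] at hw
    have h15 := h13 _ hw
    -- a letter of nonzero index
    obtain ⟨p, hp, hp0⟩ : ∃ p : G0 x M, Occ p r0 ∧ p.1.2 ≠ 0 := by
      by_contra hcon
      push Not at hcon
      refine hz (FreeGroup.of z ^ n) ?_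
      have h16 := iot_sh z (Multiplicative.ofAdd n) r'
      rw [toAdd_ofAdd] at h16
      rw [← h16, ← hr0]
      have h17 : r0 ∈ (inc (fun p : G0 x M => p.1.2 = 0)).range := by
        rw [mem_range_inc]
        exact hcon
      obtain ⟨v, rfl⟩ := h17
      have h18 : ∀ v : FreeGroup {p : G0 x M // p.1.2 = 0},
          iot z (inc (PX x M) (inc (fun p : G0 x M => p.1.2 = 0) v)) ∈ (inc (· ≠ z)).range := by
        intro v
        refine ⟨FreeGroup.map (fun p : {p : G0 x M // p.1.2 = 0} => p.1.1.1) v, ?_⟩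
        have : (inc (· ≠ z)).comp (FreeGroup.map (fun p : {p : G0 x M // p.1.2 = 0} => p.1.1.1))
          = ((iot z).comp (inc (PX x M))).comp (inc (fun p : G0 x M => p.1.2 = 0)) := by
          apply FreeGroup.ext_hom
          intro p
          simp only [MonoidHom.comp_apply, inc, FreeGroup.map.of, iot_of, p.2]
          simp
        exact congrArg (fun f => f v) this
      exact h18 v
    have h16 : FreeGroup.map f w ∈ (inc (· ≠ p)).range := by
      refine ⟨FreeGroup.map (fun y => (⟨f y, by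
        intro e
        apply hp0
        rw [← e]⟩ : {q : G0 x M // q ≠ p})) w, ?_⟩
      have : (inc (· ≠ p)).comp (FreeGroup.map (fun y => (⟨f y, by
        intro e
        apply hp0
        rw [← e]⟩ : {q : G0 x M // q ≠ p}))) = FreeGroup.map f := by
        apply FreeGroup.ext_hom
        intro y
        simp only [MonoidHom.comp_apply, inc, FreeGroup.map.of]
      exact congrArg (fun f => f w) this
    obtain ⟨v, hv⟩ := h16
    rw [← hv] at h15
    have h17 := h10 p (Ess_of_CR h5 hp) v h15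
    rw [h17, map_one] at hv
    apply FreeGroup.map_injective hf
    rw [← hv, map_one]
  · set x : {y : X // y ≠ t} := ⟨z, hzt⟩ with hxdef
    obtain ⟨i0, hx⟩ : ∃ i0, Occ (x, i0) r' := by
      by_contra hcon
      push Not at hcon
      refine hz 1 ?_
      rw [one_mul, inv_one, mul_one]
      exact iot_avoid (x := x) hcon
    obtain ⟨n, M, hM, r0, hr0, h5, h6, h10, h11, h12, h13⟩ := level hcr hx IH
    rw [← NC_iot_sh n, ← hr0] at hw
    have h14 : sig t (inc (· ≠ z) w) = 1 := sig_of_NC (sig_iot t _) hw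
    have h15 := eq_iot h14
    have h16 : (Phi t (inc (· ≠ z) w)).left ∈ (inc (fun p : {y : X // y ≠ t} × ℤ => p.1 ≠ x)).range :=
      left_avoid x ⟨w, rfl⟩
    have h17 : (Phi t (inc (· ≠ z) w)).left ∈ (inc (PX x M)).range := by
      rw [mem_range_inc] at h16 ⊢
      intro y hy e
      exact absurd e (h16 y hy)
    obtain ⟨w0, hw0⟩ := h17
    rw [← hw0] at h15 h16
    rw [h15] at hw
    have h18 := h13 _ hw
    have h19 : w0 ∈ (inc (· ≠ botG hM)).range := by
      rw [mem_range_inc]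
      intro y hy e
      rw [mem_range_inc] at h16
      refine h16 y.1 (Occ_inc.2 hy) ?_
      rw [e]
      rfl
    obtain ⟨v, hv⟩ := h19
    rw [← hv] at h18
    have h20 := h10 _ (Ess_of_CR h5 h6) v h18
    rw [h20, map_one] at hv
    rw [← hv, map_one, map_one] at h15
    apply inc_injective (· ≠ z)
    rw [h15, map_one]

theorem toAdd_eq_zero_of_pow {a : Multiplicative ℤ} {n : ℕ} (hn : 0 < n) (h : a ^ n = 1) : a = 1 := by
  have h1 := congrArg Multiplicative.toAdd h
  rw [toAdd_pow, toAdd_one, nsmul_eq_mul] at h1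
  have h2 : (n : ℤ) ≠ 0 := by exact_mod_cast hn.ne'
  have h3 := (mul_eq_zero.1 h1).resolve_left h2
  exact Multiplicative.toAdd.injective h3

theorem lynd_step {r' : FZ t} (hcr : CR r') (hr' : r' ≠ 1)
    (IH : ∀ (Z : Type) (ρ : FreeGroup Z), ρ ≠ 1 → len ρ ≤ len r' → Frei ρ ∧ Lynd ρ) :
    Lynd (iot t r') := by
  obtain ⟨⟨x, i0⟩, hx⟩ := exists_occ hr'
  obtain ⟨n, M, hM, r0, hr0, h5, h6, h10, h11, h12, h13⟩ := level hcr hx IH
  have h14 := iot_sh t (Multiplicative.ofAdd n) r'
  refine Lynd_conj (g := FreeGroup.of t ^ (Multiplicative.ofAdd n).toAdd) ?_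
  rw [← h14, ← hr0]
  clear h14
  intro K _ j hj s hs m hm
  set j0 := (j.comp (iot t)).comp (inc (PX x M)) with hj0
  have hker : j0.ker = NC r0 := by
    apply le_antisymm
    · intro w hw
      apply h13
      rw [← hj]
      exact hw
    · apply NC_ker_of
      show j (iot t (inc (PX x M) r0)) = 1
      have := mem_NC (iot t (inc (PX x M) r0))
      rw [← hj] at this
      exact this
  obtain ⟨⟨k, hk, hsk⟩, hs2⟩ := hs
  have h15 : sig t s = 1 := by
    apply toAdd_eq_zero_of_pow hk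
    rw [← map_pow, hsk, sig_iot]
  have h16 := eq_iot h15
  set s' := (Phi t s).left with hs'
  have h17 : s' ^ k = inc (PX x M) r0 := by
    apply iot_injective t
    rw [map_pow, ← h16, hsk]
  obtain ⟨s0, hs0⟩ := root_closure (P := PX x M) (u := s') hk.ne' ⟨r0, h17.symm⟩
  have h18 : s0 ^ k = r0 := by
    apply inc_injective (PX x M)
    rw [map_pow, hs0, h17]
  have h19 : iot t (inc (PX x M) s0) = s := by rw [hs0, ← h16]
  have h20 : IsRoot s0 r0 := by
    refine ⟨⟨k, hk, h18⟩, fun u l hu => hs2 (iot t (inc (PX x M) u)) l ?_⟩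
    rw [← map_pow, ← map_pow, hu, h19]
  obtain ⟨δ0, hδ0, hδr⟩ := h11 K j0 hker s0 h20 m (fun k => by
    have : j0 s0 = j s := by rw [← h19]; rfl
    rw [this, hm])
  obtain ⟨δ, hδ, hδ1⟩ := deriv_step hM j (by
    rw [injective_iff_map_eq_one]
    intro v hv
    apply h12
    rw [← hker]
    exact hv) δ0 hδ0
  exact ⟨δ, hδ, by rw [hδ1, hδr]⟩

/-- STEP -/
theorem step {r' : FZ t} (hr' : r' ≠ 1)
    (IH : ∀ (Z : Type) (ρ : FreeGroup Z), ρ ≠ 1 → len ρ ≤ len r' → Frei ρ ∧ Lynd ρ) :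
    Frei (iot t r') ∧ Lynd (iot t r') := by
  obtain ⟨g, hg, hl⟩ := exists_CR r'
  have h1 : iot t (g * r' * g⁻¹) = iot t g * iot t r' * (iot t g)⁻¹ := by
    rw [map_mul, map_mul, map_inv]
  have IH' : ∀ (Z : Type) (ρ : FreeGroup Z), ρ ≠ 1 → len ρ ≤ len (g * r' * g⁻¹) →
      Frei ρ ∧ Lynd ρ := fun Z ρ h h' => IH Z ρ h (h'.trans hl)
  constructor
  · have := frei_step hg (CR_ne hr') IH'
    rw [h1] at this
    exact Frei_conj this
  · have := lynd_step hg (CR_ne hr') IH'
    rw [h1] at this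
    exact Lynd_conj this

end

end Pool.Agent.Lyn
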