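import Pool.Agent.Lyn.Basic

set_option autoImplicit false

/-! Words: letters, lengths, cyclically reduced conjugates. -/

namespace Pool.Agent.Lyn

open Classical in
/-- number of letters with the property `p` -/
noncomputable def cn {X : Type} (p : X → Prop) (w : FreeGroup X) : ℕ :=
  w.toWord.countP (fun q => decide (p q.1))

section
variable {X Z : Type}

open Classical in
theorem toWord_map (f : Z → X) (hf : Function.Injective f) (w : FreeGroup Z) :
    (FreeGroup.map f w).toWord = w.toWord.map (fun q => (f q.1, q.2)) := by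
  have h1 : FreeGroup.map f w = FreeGroup.mk (w.toWord.map (fun q => (f q.1, q.2))) := by
    conv_lhs => rw [← FreeGroup.mk_toWord (x := w)]
    rw [FreeGroup.map.mk]
  rw [h1, FreeGroup.toWord_mk]
  apply FreeGroup.IsReduced.reduce_eq
  have h2 : FreeGroup.IsReduced w.toWord := FreeGroup.isReduced_toWord
  unfold FreeGroup.IsReduced at h2 ⊢
  rw [List.isChain_map]
  refine List.IsChain.imp ?_ h2
  intro a b hab h
  exact hab (hf h)

open Classical in
theorem isRed (w : FreeGroup X) : FreeGroup.IsReduced w.toWord := FreeGroup.isReduced_toWord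

theorem inc_injective (P : X → Prop) : Function.Injective (inc P) :=
  FreeGroup.map_injective Subtype.val_injective

open Classical in
theorem mk_mem (P : X → Prop) (L : List (X × Bool)) (h : ∀ q ∈ L, P q.1) :
    FreeGroup.mk L ∈ (inc P).range := by
  induction L with
  | nil => exact one_mem _
  | cons q L ih =>
    have h1 : FreeGroup.mk (q :: L) = FreeGroup.mk [q] * FreeGroup.mk L := by
      rw [FreeGroup.mul_mk]; rfl
    rw [h1]
    refine mul_mem ?_ (ih (fun q' hq' => h q' (List.mem_cons_of_mem _ hq')))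
    have hq : P q.1 := h q (List.mem_cons_self)
    exact ⟨FreeGroup.mk [(⟨q.1, hq⟩, q.2)], by simp [inc]⟩

theorem mem_range_inc {P : X → Prop} {w : FreeGroup X} :
    w ∈ (inc P).range ↔ ∀ y, Occ y w → P y := by
  classical
  constructor
  · rintro ⟨v, rfl⟩ y ⟨e, he⟩
    unfold inc at he
    rw [toWord_map _ Subtype.val_injective] at he
    obtain ⟨q, _, hq⟩ := List.mem_map.1 he
    simp only [Prod.mk.injEq] at hq
    rw [← hq.1]
    exact q.1.2
  · intro h
    rw [← FreeGroup.mk_toWord (x := w)]
    exact mk_mem P _ (fun q hq => h q.1 ⟨q.2, by convert hq⟩)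

theorem Occ_inc {P : X → Prop} {w : FreeGroup {y // P y}} {y : {y // P y}} :
    Occ y.1 (inc P w) ↔ Occ y w := by
  classical
  constructor
  · rintro ⟨e, he⟩
    unfold inc at he
    rw [toWord_map _ Subtype.val_injective] at he
    obtain ⟨q, hq1, hq⟩ := List.mem_map.1 he
    simp only [Prod.mk.injEq] at hq
    refine ⟨e, ?_⟩
    have : q = (y, e) := Prod.ext (Subtype.ext hq.1) hq.2
    rw [← this]
    convert hq1
  · rintro ⟨e, he⟩
    refine ⟨e, ?_⟩
    unfold inc
    rw [toWord_map _ Subtype.val_injective]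
    exact List.mem_map.2 ⟨(y, e), by convert he, rfl⟩

theorem len_inc {P : X → Prop} (w : FreeGroup {y // P y}) : len (inc P w) = len w := by
  classical
  unfold len inc
  rw [toWord_map _ Subtype.val_injective, List.length_map]

theorem CR_inc {P : X → Prop} {w : FreeGroup {y // P y}} : CR (inc P w) ↔ CR w := by
  classical
  unfold CR inc
  rw [toWord_map _ Subtype.val_injective, FreeGroup.isCyclicallyReduced_iff,
    FreeGroup.isCyclicallyReduced_iff]
  constructor
  · rintro ⟨_, h⟩
    refine ⟨isRed w, fun a ha b hb hab => ?_⟩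
    have := h (a.1, a.2) (by simp only [List.getLast?_map, Option.mem_def] at *; rw [ha]; rfl)
      (b.1, b.2) (by simp only [List.head?_map, Option.mem_def] at *; rw [hb]; rfl)
    exact this (congrArg Subtype.val hab)
  · rintro ⟨_, h⟩
    refine ⟨?_, fun a ha b hb hab => ?_⟩
    · have := toWord_map (Subtype.val : {y // P y} → X) Subtype.val_injective w
      have h2 := FreeGroup.isReduced_toWord (x := (FreeGroup.map (Subtype.val : {y // P y} → X)) w)
      exact this ▸ h2
    simp only [List.getLast?_map, Option.mem_def, Option.map_eq_some_iff] at ha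
    simp only [List.head?_map, Option.mem_def, Option.map_eq_some_iff] at hb
    obtain ⟨a', ha', rfl⟩ := ha
    obtain ⟨b', hb', rfl⟩ := hb
    exact h a' ha' b' hb' (Subtype.ext hab)

theorem len_pos {r : FreeGroup X} (h : r ≠ 1) : 0 < len r := by
  classical
  unfold len
  rw [List.length_pos_iff]
  intro h'
  exact h (FreeGroup.toWord_eq_nil_iff.1 h')

theorem exists_occ {r : FreeGroup X} (h : r ≠ 1) : ∃ x, Occ x r := by
  classical
  obtain ⟨q, hq⟩ := List.exists_mem_of_length_pos (len_pos h)
  exact ⟨q.1, q.2, hq⟩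

theorem not_occ_one (x : X) : ¬ Occ x (1 : FreeGroup X) := by
  classical
  rintro ⟨e, he⟩
  simp at he

theorem cn_mul (p : X → Prop) (v w : FreeGroup X) : cn p (v * w) ≤ cn p v + cn p w := by
  classical
  unfold cn
  rw [← List.countP_append]
  exact (FreeGroup.toWord_mul_sublist v w).countP_le

theorem cn_inv (p : X → Prop) (v : FreeGroup X) : cn p v⁻¹ = cn p v := by
  classical
  unfold cn
  rw [FreeGroup.toWord_inv]
  unfold FreeGroup.invRev
  rw [List.countP_reverse, List.countP_map]
  rfl

theorem cn_le_len (p : X → Prop) (v : FreeGroup X) : cn p v ≤ len v := List.countP_le_length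

theorem cn_lt_len {p : X → Prop} {v : FreeGroup X} {x : X} (hx : Occ x v) (hp : ¬ p x) :
    cn p v < len v := by
  classical
  obtain ⟨e, he⟩ := hx
  unfold cn len
  rw [lt_iff_le_and_ne]
  refine ⟨List.countP_le_length, fun h => ?_⟩
  rw [List.countP_eq_length] at h
  exact hp (by simpa using h _ he)

theorem cn_pos {x : X} {v : FreeGroup X} (hx : Occ x v) : 0 < cn (· = x) v := by
  classical
  obtain ⟨e, he⟩ := hx
  unfold cn
  rw [List.countP_pos_iff]
  exact ⟨_, he, by simp⟩

theorem cn_eq_zero {x : X} {v : FreeGroup X} (hx : ¬ Occ x v) : cn (· = x) v = 0 := by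
  classical
  unfold cn
  rw [List.countP_eq_zero]
  rintro ⟨y, e⟩ hq h
  simp only [decide_eq_true_eq] at h
  subst h
  exact hx ⟨e, hq⟩

theorem toWord_pow_CR {r : FreeGroup X} (h : CR r) (n : ℕ) :
    (by classical exact (r ^ n).toWord) = (List.replicate n (by classical exact r.toWord)).flatten := by
  classical
  have h1 := FreeGroup.toWord_pow r n
  rw [h1]
  exact (h.flatten_replicate n).isReduced.reduce_eq

theorem cn_pow {r : FreeGroup X} (h : CR r) (p : X → Prop) (n : ℕ) :
    cn p (r ^ n) = n * cn p r := by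
  classical
  unfold cn
  have h1 := toWord_pow_CR h n
  rw [h1, List.countP_flatten, List.map_replicate, List.sum_replicate]
  simp

theorem Ess_of_CR {x : X} {r : FreeGroup X} (h : CR r) (hx : Occ x r) : Ess x r := by
  intro g hg
  set n := 2 * cn (· = x) g + 1 with hn
  have h1 : (g * r * g⁻¹) ^ n ∈ (inc (· ≠ x)).range := pow_mem hg n
  rw [mem_range_inc] at h1
  have h2 : r ^ n = g⁻¹ * (g * r * g⁻¹) ^ n * g := by
    rw [conj_pow]; group
  have h3 : cn (· = x) (r ^ n) ≤ cn (· = x) g⁻¹ + cn (· = x) ((g * r * g⁻¹) ^ n) + cn (· = x) g := by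
    rw [h2]
    exact (cn_mul _ _ _).trans (Nat.add_le_add_right (cn_mul _ _ _) _)
  rw [cn_eq_zero (v := (g * r * g⁻¹) ^ n) (fun h => h1 x h rfl), cn_inv, cn_pow h] at h3
  have h4 := cn_pos hx
  have h5 : n ≤ n * cn (· = x) r := Nat.le_mul_of_pos_right _ h4
  omega

theorem Occ_of_Ess {x : X} {r : FreeGroup X} (h : Ess x r) : Occ x r := by
  by_contra hx
  refine h 1 ?_
  rw [one_mul, inv_one, mul_one, mem_range_inc]
  rintro y hy rfl
  exact hx hy

theorem root_closure {P : X → Prop} {u : FreeGroup X} {n : ℕ} (hn : n ≠ 0)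
    (h : u ^ n ∈ (inc P).range) : u ∈ (inc P).range := by
  classical
  let ρ : FreeGroup X →* FreeGroup {y // P y} :=
    FreeGroup.lift (fun x => if h : P x then FreeGroup.of ⟨x, h⟩ else 1)
  have h1 : ∀ v, ρ (inc P v) = v := by
    intro v
    have : ρ.comp (inc P) = MonoidHom.id _ := by
      ext y
      simp [ρ, inc, y.2]
    exact congrArg (fun f => f v) this
  obtain ⟨v, hv⟩ := h
  have h2 : (inc P (ρ u)) ^ n = u ^ n := by
    rw [← map_pow, ← map_pow, ← hv, h1]
  have h3 := pow_left_injective hn h2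
  exact ⟨ρ u, h3⟩

/-- every element has a cyclically reduced conjugate -/
theorem exists_CR (r : FreeGroup X) : ∃ g : FreeGroup X, CR (g * r * g⁻¹) ∧
    len (g * r * g⁻¹) ≤ len r := by
  classical
  have h1 := FreeGroup.reduceCyclically.conj_conjugator_reduceCyclically r.toWord
  set c := FreeGroup.reduceCyclically.conjugator r.toWord with hc
  set w := FreeGroup.reduceCyclically r.toWord with hw
  have hwcr : FreeGroup.IsCyclicallyReduced w :=
    FreeGroup.reduceCyclically.isCyclicallyReduced FreeGroup.isReduced_toWord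
  have h2 : r = FreeGroup.mk c * FreeGroup.mk w * (FreeGroup.mk c)⁻¹ := by
    rw [FreeGroup.inv_mk, FreeGroup.mul_mk, FreeGroup.mul_mk, h1, FreeGroup.mk_toWord]
  refine ⟨(FreeGroup.mk c)⁻¹, ?_⟩
  have h3 : (FreeGroup.mk c)⁻¹ * r * (FreeGroup.mk c)⁻¹⁻¹ = FreeGroup.mk w := by
    rw [h2]; group
  rw [h3]
  have h4 : (FreeGroup.mk w).toWord = w := by
    rw [FreeGroup.toWord_mk, hwcr.isReduced.reduce_eq]
  refine ⟨?_, ?_⟩
  · unfold CR
    rw [h4]
    exact hwcr
  · unfold len
    rw [h4]
    have := congrArg List.length h1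
    simp only [List.length_append] at this
    omega

theorem CR_ne {g r : FreeGroup X} (h : r ≠ 1) : g * r * g⁻¹ ≠ 1 := by
  intro h'
  exact h (by rwa [conj_eq_one_iff] at h')

end

end Pool.Agent.Lyn
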