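import Pool.Agent.Lyn.StepB

set_option autoImplicit false

/-! Adjoining roots by permutations. -/

namespace Pool.Agent.Lyn

section perm
variable {G : Type} [Group G] {n : ℕ}

/-- the wrapped shift of the sheets -/
def tau (hn : 0 < n) (b : G) : Equiv.Perm (G × Fin n) where
  toFun p := if h : p.2.1 + 1 < n then (p.1, ⟨p.2.1 + 1, h⟩) else (b * p.1, ⟨0, hn⟩)
  invFun p := if p.2.1 = 0 then (b⁻¹ * p.1, ⟨n - 1, by omega⟩) else
    (p.1, ⟨p.2.1 - 1, by have := p.2.2; omega⟩)
  left_inv p := by
    obtain ⟨g, ⟨i, hi⟩⟩ := p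
    simp only
    by_cases h : i + 1 < n
    · simp [h]
    · have : n - 1 = i := by omega
      simp [h, this]
  right_inv p := by
    obtain ⟨g, ⟨i, hi⟩⟩ := p
    simp only
    by_cases h : i = 0
    · subst h
      have : ¬ (n - 1 + 1 < n) := by omega
      simp [this]
    · have : i - 1 + 1 = i := by omega
      simp [h, this, hi]

theorem tau_apply (hn : 0 < n) (b g : G) (i : ℕ) (hi : i < n) :
    tau hn b (g, ⟨i, hi⟩) = if h : i + 1 < n then (g, ⟨i + 1, h⟩) else (b * g, ⟨0, hn⟩) := rfl

theorem tau_pow (hn : 0 < n) (b g : G) (l : ℕ) (hl : l ≤ n) (i : ℕ) (hi : i < n) :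
    (tau hn b ^ l) (g, ⟨i, hi⟩) =
      if h : i + l < n then (g, ⟨i + l, h⟩) else (b * g, ⟨i + l - n, by omega⟩) := by
  induction l with
  | zero => simp [hi]
  | succ l ih =>
    rw [pow_succ', Equiv.Perm.mul_apply, ih (by omega)]
    by_cases h : i + l < n
    · rw [dif_pos h, tau_apply]
      by_cases h' : i + l + 1 < n
      · rw [dif_pos h', dif_pos (by omega)]
        rfl
      · rw [dif_neg h', dif_neg (by omega)]
        have : i + (l + 1) - n = 0 := by omega
        simp only [this]
    · rw [dif_neg h, tau_apply, dif_pos (by omega), dif_neg (by omega)]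
      have : i + l - n + 1 = i + (l + 1) - n := by omega
      simp only [this]

/-- diagonal action -/
def dia (G : Type) [Group G] (n : ℕ) : G →* Equiv.Perm (G × Fin n) where
  toFun h :=
    { toFun := fun p => (h * p.1, p.2)
      invFun := fun p => (h⁻¹ * p.1, p.2)
      left_inv := fun p => by simp
      right_inv := fun p => by simp }
  map_one' := by ext1 p; simp
  map_mul' a b := by ext1 p; simp [mul_assoc]

theorem dia_apply (h : G) (p : G × Fin n) : dia G n h p = (h * p.1, p.2) := rfl

/-- right multiplication -/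
def rmul (n : ℕ) (h : G) : Equiv.Perm (G × Fin n) where
  toFun := fun p => (p.1 * h, p.2)
  invFun := fun p => (p.1 * h⁻¹, p.2)
  left_inv := fun p => by simp
  right_inv := fun p => by simp

theorem rmul_apply (h : G) (p : G × Fin n) : rmul n h p = (p.1 * h, p.2) := rfl

/-- action on the first sheet -/
def fst0 (G : Type) [Group G] (n : ℕ) : G →* Equiv.Perm (G × Fin n) where
  toFun h :=
    { toFun := fun p => if p.2.1 = 0 then (h * p.1, p.2) else p
      invFun := fun p => if p.2.1 = 0 then (h⁻¹ * p.1, p.2) else p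
      left_inv := fun p => by
        by_cases hp : p.2.1 = 0 <;> simp [hp]
      right_inv := fun p => by
        by_cases hp : p.2.1 = 0 <;> simp [hp] }
  map_one' := by ext1 p; simp
  map_mul' a b := by
    ext1 p
    by_cases hp : p.2.1 = 0 <;> simp [hp, mul_assoc]

theorem fst0_apply (h : G) (p : G × Fin n) :
    fst0 G n h p = if p.2.1 = 0 then (h * p.1, p.2) else p := rfl

theorem tau_pow_n (hn : 0 < n) (b : G) : tau hn b ^ n = dia G n b := by
  ext1 p
  obtain ⟨g, ⟨i, hi⟩⟩ := p
  rw [tau_pow hn b g n le_rfl i hi, dif_neg (by omega), dia_apply]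
  have : i + n - n = i := by omega
  simp only [this]

theorem tau_comm (hn : 0 < n) (b h : G) : Commute (tau hn b) (rmul n h) := by
  ext1 p
  obtain ⟨g, ⟨i, hi⟩⟩ := p
  rw [Equiv.Perm.mul_apply, Equiv.Perm.mul_apply, rmul_apply, tau_apply, tau_apply]
  by_cases h' : i + 1 < n
  · rw [dif_pos h', dif_pos h', rmul_apply]
  · rw [dif_neg h', dif_neg h', rmul_apply, mul_assoc]

theorem fst0_comm (a h : G) : Commute (fst0 G n a) (rmul n h) := by
  ext1 p
  rw [Equiv.Perm.mul_apply, Equiv.Perm.mul_apply, rmul_apply, fst0_apply, fst0_apply]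
  by_cases hp : p.2.1 = 0
  · simp [hp, rmul_apply, mul_assoc]
  · simp [hp, rmul_apply]

end perm

section kappa
variable {X : Type}

open Classical in
/-- the substitution `a ↦ a * b ^ c`, `b ↦ b ^ n` -/
noncomputable def kap (a b : X) (n : ℕ) (c : ℤ) : FreeGroup X →* FreeGroup X :=
  FreeGroup.lift (fun y => if y = a then FreeGroup.of a * FreeGroup.of b ^ c else
    if y = b then FreeGroup.of b ^ n else FreeGroup.of y)

theorem kap_a (a b : X) (n : ℕ) (c : ℤ) :
    kap a b n c (FreeGroup.of a) = FreeGroup.of a * FreeGroup.of b ^ c := by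
  unfold kap
  rw [FreeGroup.lift_apply_of, if_pos rfl]

theorem kap_b {a b : X} (hab : a ≠ b) (n : ℕ) (c : ℤ) :
    kap a b n c (FreeGroup.of b) = FreeGroup.of b ^ n := by
  unfold kap
  rw [FreeGroup.lift_apply_of, if_neg hab.symm, if_pos rfl]

theorem kap_y {a b y : X} (ha : y ≠ a) (hb : y ≠ b) (n : ℕ) (c : ℤ) :
    kap a b n c (FreeGroup.of y) = FreeGroup.of y := by
  unfold kap
  rw [FreeGroup.lift_apply_of, if_neg ha, if_neg hb]

theorem kap_ext {a b : X} (hab : a ≠ b) {n : ℕ} (hn : 0 < n) (c : ℤ) {G : Type} [Group G]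
    (p : FreeGroup X →* G) : ∃ l : FreeGroup X →* Equiv.Perm (G × Fin n),
      ∀ f, l (kap a b n c f) = dia G n (p f) := by
  classical
  let l : FreeGroup X →* Equiv.Perm (G × Fin n) := FreeGroup.lift (fun y =>
    if y = a then dia G n (p (FreeGroup.of a)) * tau hn (p (FreeGroup.of b)) ^ (-c) else
    if y = b then tau hn (p (FreeGroup.of b)) else dia G n (p (FreeGroup.of y)))
  have ha : l (FreeGroup.of a) =
      dia G n (p (FreeGroup.of a)) * tau hn (p (FreeGroup.of b)) ^ (-c) := by
    simp only [l]
    rw [FreeGroup.lift_apply_of, if_pos rfl]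
  have hb : l (FreeGroup.of b) = tau hn (p (FreeGroup.of b)) := by
    simp only [l]
    rw [FreeGroup.lift_apply_of, if_neg hab.symm, if_pos rfl]
  refine ⟨l, fun f => ?_⟩
  have : l.comp (kap a b n c) = (dia G n).comp p := by
    apply FreeGroup.ext_hom
    intro y
    rw [MonoidHom.comp_apply, MonoidHom.comp_apply]
    by_cases hya : y = a
    · subst hya
      rw [kap_a, map_mul, map_zpow, ha, hb]
      group
    · by_cases hyb : y = b
      · subst hyb
        rw [kap_b hab, map_pow, hb, tau_pow_n]
      · rw [kap_y hya hyb]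
        simp only [l]
        rw [FreeGroup.lift_apply_of, if_neg hya, if_neg hyb]
  exact congrArg (fun f' => f' f) this

theorem dia_injective {G : Type} [Group G] {n : ℕ} (hn : 0 < n) :
    Function.Injective (dia G n) := by
  intro a b h
  have := congrArg (fun f : Equiv.Perm (G × Fin n) => (f (1, ⟨0, hn⟩)).1) h
  simpa [dia_apply] using this

theorem kap_NC {a b : X} (hab : a ≠ b) {n : ℕ} (hn : 0 < n) (c : ℤ) {r w : FreeGroup X} :
    kap a b n c w ∈ NC (kap a b n c r) ↔ w ∈ NC r := by
  constructor
  · intro h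
    obtain ⟨l, hl⟩ := kap_ext hab hn c (QuotientGroup.mk' (NC r))
    have h1 : NC (kap a b n c r) ≤ l.ker := by
      apply NC_ker_of
      rw [hl]
      have : QuotientGroup.mk' (NC r) r = 1 := (QuotientGroup.eq_one_iff _).2 (mem_NC r)
      rw [this, map_one]
    have h2 : l (kap a b n c w) = 1 := h1 h
    rw [hl] at h2
    have h3 : QuotientGroup.mk' (NC r) w = 1 := dia_injective hn (by rw [h2, map_one])
    exact (QuotientGroup.eq_one_iff _).1 h3
  · intro h
    have h1 : NC r ≤ (NC (kap a b n c r)).comap (kap a b n c) := by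
      have : ((NC (kap a b n c r)).comap (kap a b n c)).Normal :=
        Subgroup.Normal.comap inferInstance _
      exact NC_le (mem_NC _)
    exact h1 h

theorem kap_injective {a b : X} (hab : a ≠ b) {n : ℕ} (hn : 0 < n) (c : ℤ) :
    Function.Injective (kap a b n c) := by
  rw [injective_iff_map_eq_one]
  intro w hw
  obtain ⟨l, hl⟩ := kap_ext hab hn c (MonoidHom.id (FreeGroup X))
  have := hl w
  rw [hw, map_one] at this
  exact dia_injective hn (by rw [map_one]; exact this.symm)

theorem sig_inc {a : X} {v : FreeGroup X} (h : v ∈ (inc (· ≠ a)).range) : sig a v = 1 := by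
  classical
  obtain ⟨w, rfl⟩ := h
  have : (sig a).comp (inc (· ≠ a)) = 1 := by
    apply FreeGroup.ext_hom
    intro y
    simp only [MonoidHom.comp_apply, inc, FreeGroup.map.of, sig, FreeGroup.lift_apply_of]
    rw [if_neg y.2]
    rfl
  exact congrArg (fun f => f w) this

theorem sig_of_self (a : X) : sig a (FreeGroup.of a) = Multiplicative.ofAdd 1 := by
  unfold sig
  rw [FreeGroup.lift_apply_of, if_pos rfl]

theorem sig_of_ne {a y : X} (h : y ≠ a) : sig a (FreeGroup.of y) = 1 := by
  unfold sig
  rw [FreeGroup.lift_apply_of, if_neg h]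

/-- ROOT lemma -/
theorem kap_root {a b : X} (hab : a ≠ b) {n : ℕ} (hn : 0 < n) (c : ℤ) {s u : FreeGroup X} {k : ℕ}
    (hs : sig a s ≠ 1) (hu : u ^ k = kap a b n c s) : ∃ w, w ^ k = s := by
  classical
  let F := FreeGroup X
  let l : FreeGroup X →* Equiv.Perm (F × Fin n) := FreeGroup.lift (fun y =>
    if y = a then fst0 F n (FreeGroup.of a) * tau hn (FreeGroup.of b) ^ (-c) else
    if y = b then tau hn (FreeGroup.of b) else fst0 F n (FreeGroup.of y))
  have hla : l (FreeGroup.of a) = fst0 F n (FreeGroup.of a) * tau hn (FreeGroup.of b) ^ (-c) := by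
    simp only [l]
    rw [FreeGroup.lift_apply_of, if_pos rfl]
  have hlb : l (FreeGroup.of b) = tau hn (FreeGroup.of b) := by
    simp only [l]
    rw [FreeGroup.lift_apply_of, if_neg hab.symm, if_pos rfl]
  have hly : ∀ y, y ≠ a → y ≠ b → l (FreeGroup.of y) = fst0 F n (FreeGroup.of y) := by
    intro y hya hyb
    simp only [l]
    rw [FreeGroup.lift_apply_of, if_neg hya, if_neg hyb]
  have hka : l (kap a b n c (FreeGroup.of a)) = fst0 F n (FreeGroup.of a) := by
    rw [kap_a, map_mul, map_zpow, hla, hlb]
    group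
  have hkb : l (kap a b n c (FreeGroup.of b)) = dia F n (FreeGroup.of b) := by
    rw [kap_b hab, map_pow, hlb, tau_pow_n]
  have hky : ∀ y, y ≠ a → y ≠ b →
      l (kap a b n c (FreeGroup.of y)) = fst0 F n (FreeGroup.of y) := by
    intro y hya hyb
    rw [kap_y hya hyb, hly y hya hyb]
  -- sheet zero
  have h0 : ∀ f g : F, l (kap a b n c f) (g, ⟨0, hn⟩) = (f * g, ⟨0, hn⟩) := by
    intro f
    induction f using FreeGroup.induction_on with
    | C1 => intro g; simp
    | of y =>
      intro g
      by_cases hya : y = a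
      · subst hya
        rw [hka, fst0_apply]
        simp
      · by_cases hyb : y = b
        · subst hyb
          rw [hkb, dia_apply]
        · rw [hky y hya hyb, fst0_apply]
          simp
    | inv_of y ih =>
      intro g
      rw [map_inv, map_inv, Equiv.Perm.inv_eq_iff_eq, ih, mul_inv_cancel_left]
    | mul f f' h h' =>
      intro g
      rw [map_mul, map_mul, Equiv.Perm.mul_apply, h', h, mul_assoc]
  -- other sheets
  let ν : F →* F := FreeGroup.lift (fun y => if y = b then FreeGroup.of b else 1)
  have hν : ∀ y, ν (FreeGroup.of y) = if y = b then FreeGroup.of b else 1 := by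
    intro y
    simp only [ν]
    exact FreeGroup.lift_apply_of
  have h1 : ∀ f g : F, ∀ i : Fin n, i.1 ≠ 0 → l (kap a b n c f) (g, i) = (ν f * g, i) := by
    intro f
    induction f using FreeGroup.induction_on with
    | C1 => intro g i hi; simp
    | of y =>
      intro g i hi
      by_cases hya : y = a
      · subst hya
        rw [hka, fst0_apply]
        simp only [hi, if_false, hν, if_neg hab, one_mul]
      · by_cases hyb : y = b
        · subst hyb
          rw [hkb, dia_apply]
          simp only [hν, if_true]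
        · rw [hky y hya hyb, fst0_apply]
          simp only [hi, if_false, hν, if_neg hyb, one_mul]
    | inv_of y ih =>
      intro g i hi
      rw [map_inv, map_inv, Equiv.Perm.inv_eq_iff_eq, ih _ _ hi, map_inv, mul_inv_cancel_left]
    | mul f f' h h' =>
      intro g i hi
      rw [map_mul, map_mul, Equiv.Perm.mul_apply, h' _ _ hi, h _ _ hi, map_mul, mul_assoc]
  -- right multiplication
  have hR : ∀ f h : F, Commute (l f) (rmul n h) := by
    intro f h
    induction f using FreeGroup.induction_on with
    | C1 => rw [map_one]; exact Commute.one_left _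
    | of y =>
      by_cases hya : y = a
      · subst hya
        rw [hla]
        exact (fst0_comm _ _).mul_left ((tau_comm hn _ _).zpow_left _)
      · by_cases hyb : y = b
        · subst hyb
          rw [hlb]
          exact tau_comm hn _ _
        · rw [hly y hya hyb]
          exact fst0_comm _ _
    | inv_of y ih => rw [map_inv]; exact ih.inv_left
    | mul f f' hf hf' => rw [map_mul]; exact hf.mul_left hf'
  have hR' : ∀ (f h g : F) (i : Fin n), l f (g * h, i) = ((l f (g, i)).1 * h, (l f (g, i)).2) := by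
    intro f h g i
    have := congrArg (fun q : Equiv.Perm (F × Fin n) => q (g, i)) (hR f h).eq
    simpa [Equiv.Perm.mul_apply, rmul_apply] using this
  obtain ⟨c0, i0, hc⟩ : ∃ c0 i0, l u (1, ⟨0, hn⟩) = (c0, i0) := ⟨_, _, rfl⟩
  have h2 : ∀ g : F, l u (g, ⟨0, hn⟩) = (c0 * g, i0) := by
    intro g
    have := hR' u g 1 ⟨0, hn⟩
    rw [one_mul, hc] at this
    exact this
  have h3 : l u (l (kap a b n c s) (1, ⟨0, hn⟩)) = l (kap a b n c s) (l u (1, ⟨0, hn⟩)) := by
    rw [← Equiv.Perm.mul_apply, ← Equiv.Perm.mul_apply, ← map_mul, ← map_mul, ← hu,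
      (Commute.refl u).pow_right k |>.eq]
  have h4 : i0.1 = 0 := by
    by_contra hne
    rw [h0, mul_one, h2, hc, h1 _ _ _ hne] at h3
    have h5 : c0 * s = ν s * c0 := congrArg Prod.fst h3
    have h6 := congrArg (sig a) h5
    rw [map_mul, map_mul, mul_comm] at h6
    have h7 := mul_right_cancel h6
    have h8 : sig a (ν s) = 1 := by
      have : (sig a).comp ν = 1 := by
        apply FreeGroup.ext_hom
        intro y
        rw [MonoidHom.comp_apply, hν]
        by_cases hyb : y = b
        · rw [if_pos hyb, sig_of_ne hab.symm]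
          rfl
        · rw [if_neg hyb, map_one]
          rfl
      exact congrArg (fun f => f s) this
    rw [h8] at h7
    exact hs h7
  have h5 : i0 = ⟨0, hn⟩ := Fin.ext h4
  have h6 : ∀ k : ℕ, (l u ^ k) (1, ⟨0, hn⟩) = (c0 ^ k, ⟨0, hn⟩) := by
    intro k
    induction k with
    | zero => simp
    | succ k ih => rw [pow_succ', Equiv.Perm.mul_apply, ih, h2, h5, pow_succ']
  refine ⟨c0, ?_⟩
  have h7 := h6 k
  rw [← map_pow, hu, h0, mul_one] at h7
  exact (congrArg Prod.fst h7).symm

end kappa

end Pool.Agent.Lyn
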